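import Mathlib

/-!
# Alternating groups on initial segments of `ℕ`

Two even permutations (a three cycle and a rotation) generate the alternating group of odd degree at
least five.
-/

namespace Pool.Agent.Lib.Branch74

open Equiv Equiv.Perm MulAction

/-! ### Generation of the alternating group on `ZMod k` -/

/-- the three cycle `0 → 1 → 2 → 0` -/
def cZ (k : ℕ) : Perm (ZMod k) := swap 0 1 * swap 1 2

/-- the rotation -/
def rZ (k : ℕ) : Perm (ZMod k) := Equiv.addRight 1

@[simp] theorem rZ_apply (k : ℕ) (x : ZMod k) : rZ k x = x + 1 := rfl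

@[simp] theorem rZ_inv_apply (k : ℕ) (x : ZMod k) : (rZ k)⁻¹ x = x - 1 := by
  rw [Perm.inv_eq_iff_eq]; simp

@[simp] theorem rZ_symm_apply (k : ℕ) (x : ZMod k) : (rZ k).symm x = x - 1 := rZ_inv_apply k x

theorem natCast_ne {k : ℕ} {a b : ℕ} (ha : a < k) (hb : b < k) (hab : a ≠ b) :
    (a : ZMod k) ≠ (b : ZMod k) := by
  intro h
  rw [ZMod.natCast_eq_natCast_iff'] at h
  rw [Nat.mod_eq_of_lt ha, Nat.mod_eq_of_lt hb] at h
  exact hab h

theorem intCast_eq_iff {k : ℕ} {a b : ℤ} (h : |a - b| < k) :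
    (a : ZMod k) = (b : ZMod k) ↔ a = b := by
  constructor
  · intro h'
    rw [ZMod.intCast_eq_intCast_iff_dvd_sub] at h'
    have h2 : (k : ℤ) ∣ a - b := by
      have := (dvd_neg.mpr h')
      rwa [neg_sub] at this
    have := Int.eq_zero_of_abs_lt_dvd h2 h
    omega
  · rintro rfl; rfl

theorem cZ_zero {k : ℕ} (hk : 5 ≤ k) : cZ k 0 = 1 := by
  have h1 : (0 : ZMod k) ≠ 1 := by
    simpa using natCast_ne (k := k) (a := 0) (b := 1) (by omega) (by omega) (by omega)
  have h2 : (0 : ZMod k) ≠ 2 := by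
    simpa using natCast_ne (k := k) (a := 0) (b := 2) (by omega) (by omega) (by omega)
  simp [cZ, swap_apply_of_ne_of_ne h1 h2]

theorem cZ_one {k : ℕ} (hk : 5 ≤ k) : cZ k 1 = 2 := by
  have h1 : (2 : ZMod k) ≠ 0 := by
    simpa using natCast_ne (k := k) (a := 2) (b := 0) (by omega) (by omega) (by omega)
  have h2 : (2 : ZMod k) ≠ 1 := by
    simpa using natCast_ne (k := k) (a := 2) (b := 1) (by omega) (by omega) (by omega)
  simp [cZ, swap_apply_of_ne_of_ne h1 h2]

theorem cZ_two {k : ℕ} : cZ k 2 = 0 := by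
  simp [cZ]

theorem cZ_of_ne {k : ℕ} {x : ZMod k} (h0 : x ≠ 0) (h1 : x ≠ 1) (h2 : x ≠ 2) : cZ k x = x := by
  simp [cZ, swap_apply_of_ne_of_ne h1 h2, swap_apply_of_ne_of_ne h0 h1]

theorem cZ_isThreeCycle {k : ℕ} [NeZero k] (hk : 5 ≤ k) : (cZ k).IsThreeCycle := by
  have h : cZ k = swap (1 : ZMod k) 0 * swap 1 2 := by
    rw [cZ, swap_comm]
  rw [h]
  apply isThreeCycle_swap_mul_swap_same
  · simpa using natCast_ne (k := k) (a := 1) (b := 0) (by omega) (by omega) (by omega)
  · simpa using natCast_ne (k := k) (a := 1) (b := 2) (by omega) (by omega) (by omega)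
  · simpa using natCast_ne (k := k) (a := 0) (b := 2) (by omega) (by omega) (by omega)

theorem rZ_pow (k : ℕ) (n : ℕ) (x : ZMod k) : (rZ k ^ n) x = x + n := by
  induction n with
  | zero => simp
  | succ n ih => rw [pow_succ', Perm.mul_apply, ih]; simp; ring

/-- The two permutations generate a group containing the alternating group. -/
theorem alt_le_closure (k : ℕ) [NeZero k] (hk : 5 ≤ k) :
    alternatingGroup (ZMod k) ≤ Subgroup.closure {cZ k, rZ k} := by
  set G := Subgroup.closure {cZ k, rZ k} with hG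
  have hc : cZ k ∈ G := Subgroup.subset_closure (by simp)
  have hr : rZ k ∈ G := Subgroup.subset_closure (by simp)
  refine alternatingGroup_le_of_isPreprimitive_of_isThreeCycle_mem ?_ (cZ_isThreeCycle hk) hc
  have htrans : IsPretransitive G (ZMod k) := by
    constructor
    intro x y
    refine ⟨⟨rZ k ^ (y - x).val, G.pow_mem hr _⟩, ?_⟩
    change (rZ k ^ (y - x).val) x = y
    rw [rZ_pow]
    simp
  refine IsPreprimitive.of_isTrivialBlock_base (0 : ZMod k) ?_
  intro B h0 hB
  -- smul of a set by elements of `G`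
  have key : ∀ g : Perm (ZMod k), g ∈ G → ∀ x ∈ B, g x ∈ B → ∀ y ∈ B, g y ∈ B := by
    intro g hg x hx hgx y hy
    have := (isBlock_iff_smul_eq_of_mem.mp hB) (g := ⟨g, hg⟩) (a := x) hx hgx
    rw [← this]
    exact ⟨y, hy, rfl⟩
  have hn : ∀ (a b : ℕ), a < k → b < k → a ≠ b → (a : ZMod k) ≠ (b : ZMod k) :=
    fun a b ha hb hab => natCast_ne ha hb hab
  have h10 : (1 : ZMod k) ≠ 0 := by simpa using hn 1 0 (by omega) (by omega) (by omega)
  have h20 : (2 : ZMod k) ≠ 0 := by simpa using hn 2 0 (by omega) (by omega) (by omega)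
  have h21 : (2 : ZMod k) ≠ 1 := by simpa using hn 2 1 (by omega) (by omega) (by omega)
  have h40 : (4 : ZMod k) ≠ 0 := by simpa using hn 4 0 (by omega) (by omega) (by omega)
  have h41 : (4 : ZMod k) ≠ 1 := by simpa using hn 4 1 (by omega) (by omega) (by omega)
  have h42 : (4 : ZMod k) ≠ 2 := by simpa using hn 4 2 (by omega) (by omega) (by omega)
  -- if `1 ∈ B` then `B = univ`
  have univ_of_one : (1 : ZMod k) ∈ B → B = Set.univ := by
    intro h1
    have hstep : ∀ y ∈ B, y + 1 ∈ B := by
      intro y hy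
      exact key (rZ k) hr 0 h0 (by simpa using h1) y hy
    have hall : ∀ n : ℕ, (n : ZMod k) ∈ B := by
      intro n
      induction n with
      | zero => simpa using h0
      | succ n ih => simpa using hstep _ ih
    ext y
    simp only [Set.mem_univ, iff_true]
    simpa using hall y.val
  by_cases hsub : B ⊆ {0, 2}
  · by_cases h2 : (2 : ZMod k) ∈ B
    · exfalso
      have h4 : ∀ y ∈ B, y + 2 ∈ B := by
        intro y hy
        have := key (rZ k ^ 2) (G.pow_mem hr _) 0 h0 (by rw [rZ_pow]; simpa using h2) y hy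
        rw [rZ_pow] at this
        simpa using this
      have h4' : (4 : ZMod k) ∈ B := by
        have := h4 2 h2
        norm_num at this
        exact this
      rcases hsub h4' with h | h
      · exact h40 h
      · exact h42 h
    · left
      intro x hx y hy
      have hx' := hsub hx
      have hy' := hsub hy
      simp only [Set.mem_insert_iff, Set.mem_singleton_iff] at hx' hy'
      rcases hx' with rfl | rfl
      · rcases hy' with rfl | rfl
        · rfl
        · exact absurd hy h2
      · exact absurd hx h2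
  · right
    obtain ⟨x, hxB, hx⟩ := Set.not_subset.mp hsub
    simp only [Set.mem_insert_iff, Set.mem_singleton_iff, not_or] at hx
    by_cases hx1 : x = 1
    · subst hx1
      exact univ_of_one hxB
    · have hfix : cZ k x = x := cZ_of_ne hx.1 hx1 hx.2
      have := key (cZ k) hc x hxB (by rw [hfix]; exact hxB) 0 h0
      rw [cZ_zero hk] at this
      exact univ_of_one this

/-! ### Even permutations of an initial segment -/

/-- even permutations of `ℕ` supported on `[0, k)` -/
noncomputable def A (k : ℕ) : Subgroup (Perm ℕ) :=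
  (alternatingGroup (Fin k)).map (Equiv.Perm.viaEmbeddingHom Fin.valEmbedding)

theorem A_fix {k : ℕ} {σ : Perm ℕ} (h : σ ∈ A k) {x : ℕ} (hx : k ≤ x) : σ x = x := by
  obtain ⟨τ, -, rfl⟩ := h
  rw [viaEmbeddingHom_apply]
  apply viaEmbedding_apply_of_notMem
  rintro ⟨y, hy⟩
  have := y.2
  simp only [Fin.valEmbedding_apply] at hy
  omega

theorem A_lt {k : ℕ} {σ : Perm ℕ} (h : σ ∈ A k) {x : ℕ} (hx : x < k) : σ x < k := by
  obtain ⟨τ, -, rfl⟩ := h
  rw [viaEmbeddingHom_apply]
  have := viaEmbedding_apply τ Fin.valEmbedding ⟨x, hx⟩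
  simp only [Fin.valEmbedding_apply] at this
  rw [this]
  exact (τ ⟨x, hx⟩).2

theorem A_lt_iff {k : ℕ} {σ : Perm ℕ} (h : σ ∈ A k) {x : ℕ} : σ x < k ↔ x < k := by
  constructor
  · intro hx
    by_contra hcon
    rw [A_fix h (by omega)] at hx
    exact hcon hx
  · exact A_lt h

/-- every permutation fixing everything from `k` on comes from `Fin k` -/
theorem exists_of_fix {k : ℕ} {σ : Perm ℕ} (h : ∀ x, k ≤ x → σ x = x) :
    ∃ τ : Perm (Fin k), viaEmbeddingHom Fin.valEmbedding τ = σ := by
  have hlt : ∀ x, x < k → σ x < k := by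
    intro x hx
    by_contra hcon
    have h1 := h (σ x) (by omega)
    have h2 := σ.injective h1
    omega
  have hlt' : ∀ x, x < k → σ.symm x < k := by
    intro x hx
    by_contra hcon
    have h1 := h (σ.symm x) (by omega)
    rw [Equiv.apply_symm_apply] at h1
    omega
  refine ⟨⟨fun x => ⟨σ x, hlt x x.2⟩, fun x => ⟨σ.symm x, hlt' x x.2⟩, ?_, ?_⟩, ?_⟩
  · intro x; simp
  · intro x; simp
  · ext1 x
    rw [viaEmbeddingHom_apply]
    by_cases hx : x < k
    · have := viaEmbedding_apply (e := (⟨fun x => ⟨σ x, hlt x x.2⟩, fun x => ⟨σ.symm x, hlt' x x.2⟩,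
        fun x => by simp, fun x => by simp⟩ : Perm (Fin k))) Fin.valEmbedding ⟨x, hx⟩
      simpa using this
    · rw [viaEmbedding_apply_of_notMem, h x (by omega)]
      rintro ⟨y, hy⟩
      have := y.2
      simp only [Fin.valEmbedding_apply] at hy
      omega

/-- a permutation of odd order is even -/
theorem mem_A_of_odd {k : ℕ} {σ : Perm ℕ} (h : ∀ x, k ≤ x → σ x = x) {j : ℕ} (hj : σ ^ (2 * j + 1) = 1) :
    σ ∈ A k := by
  obtain ⟨τ, rfl⟩ := exists_of_fix h
  refine ⟨τ, ?_, rfl⟩
  have h1 : τ ^ (2 * j + 1) = 1 := by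
    apply viaEmbeddingHom_injective Fin.valEmbedding
    rw [map_pow, hj, map_one]
  have h2 : Equiv.Perm.sign τ ^ (2 * j + 1) = 1 := by
    rw [← map_pow, h1, map_one]
  rw [pow_succ, pow_mul] at h2
  have h3 : Equiv.Perm.sign τ ^ 2 = 1 := by
    rcases Int.units_eq_one_or (Equiv.Perm.sign τ) with h | h <;> simp [h]
  rw [h3, one_pow, one_mul] at h2
  exact Equiv.Perm.mem_alternatingGroup.mpr h2

/-- products of two transpositions are even -/
theorem swap_mul_swap_mem_A {k : ℕ} {a b c d : ℕ} (hab : a ≠ b) (hcd : c ≠ d) (ha : a < k) (hb : b < k)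
    (hc : c < k) (hd : d < k) : swap a b * swap c d ∈ A k := by
  refine ⟨swap ⟨a, ha⟩ ⟨b, hb⟩ * swap ⟨c, hc⟩ ⟨d, hd⟩, ?_, ?_⟩
  · rw [SetLike.mem_coe, Equiv.Perm.mem_alternatingGroup, map_mul, Equiv.Perm.sign_swap,
      Equiv.Perm.sign_swap]
    · rfl
    · simpa using hcd
    · simpa using hab
  · have hs : ∀ (u v : ℕ) (hu : u < k) (hv : v < k),
        viaEmbeddingHom Fin.valEmbedding (swap (⟨u, hu⟩ : Fin k) ⟨v, hv⟩) = swap u v := by
      intro u v hu hv
      ext1 x
      rw [viaEmbeddingHom_apply]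
      by_cases hx : x < k
      · have := viaEmbedding_apply (swap (⟨u, hu⟩ : Fin k) ⟨v, hv⟩) Fin.valEmbedding ⟨x, hx⟩
        simp only [Fin.valEmbedding_apply] at this
        rw [this]
        by_cases h1 : x = u
        · subst h1; simp
        · by_cases h2 : x = v
          · subst h2; simp
          · rw [swap_apply_of_ne_of_ne h1 h2, swap_apply_of_ne_of_ne]
            · simpa using h1
            · simpa using h2
      · rw [viaEmbedding_apply_of_notMem, swap_apply_of_ne_of_ne]
        · omega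
        · omega
        · rintro ⟨y, hy⟩
          have := y.2
          simp only [Fin.valEmbedding_apply] at hy
          omega
    rw [map_mul, hs, hs]

theorem A_transitive {k : ℕ} (hk : 3 ≤ k) {x y : ℕ} (hx : x < k) (hy : y < k) :
    ∃ σ ∈ A k, σ x = y := by
  by_cases hxy : x = y
  · subst hxy
    exact ⟨1, one_mem _, rfl⟩
  · -- choose two points different from `x`
    have : ∃ z w, z < k ∧ w < k ∧ z ≠ w ∧ z ≠ x ∧ w ≠ x := by
      by_cases h0 : x = 0
      · exact ⟨1, 2, by omega, by omega, by omega, by omega, by omega⟩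
      · by_cases h1 : x = 1
        · exact ⟨0, 2, by omega, by omega, by omega, by omega, by omega⟩
        · exact ⟨0, 1, by omega, by omega, by omega, by omega, by omega⟩
    obtain ⟨z, w, hz, hw, hzw, hzx, hwx⟩ := this
    refine ⟨swap x y * swap z w, swap_mul_swap_mem_A hxy hzw hx hy hz hw, ?_⟩
    rw [Perm.mul_apply, swap_apply_of_ne_of_ne (Ne.symm hzx) (Ne.symm hwx), swap_apply_left]

/-- an even permutation fixing `2` and moving `0`, `1` to `3`, `4` -/
theorem exists_shift {k : ℕ} (hk : 5 ≤ k) : ∃ σ ∈ A k, σ 0 = 3 ∧ σ 1 = 4 ∧ σ 2 = 2 := by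
  refine ⟨swap 0 3 * swap 1 4, swap_mul_swap_mem_A (by omega) (by omega) (by omega) (by omega)
    (by omega) (by omega), ?_, ?_, ?_⟩ <;> decide

/-- `A k` is the closure of its commutators -/
theorem A_commutators {k : ℕ} (hk : 5 ≤ k) : ⁅A k, A k⁆ = A k := by
  rw [A, ← Subgroup.map_commutator, commutator_alternatingGroup_eq_self (by simpa using hk)]

end Pool.Agent.Lib.Branch74
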