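import Mathlib

/-!
# Wreath recursion on finite words

Automorphisms of the infinitely branching tree `List ℕ`, described by their root permutation and their
sections.
-/

namespace Pool.Agent.Lib.Branch74

open Equiv

/-- The automorphism with root permutation `σ` and sections `f x`. -/
def nodeFun (σ : ℕ → ℕ) (f : ℕ → List ℕ → List ℕ) : List ℕ → List ℕ
  | [] => []
  | x :: xs => σ x :: f x xs

/-- The automorphism with root permutation `σ` and sections `f x`. -/
def node (σ : Perm ℕ) (f : ℕ → Perm (List ℕ)) : Perm (List ℕ) where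
  toFun := nodeFun σ (fun x => f x)
  invFun := nodeFun σ.symm (fun x => (f (σ.symm x)).symm)
  left_inv := by
    rintro (_ | ⟨x, xs⟩) <;> simp [nodeFun]
  right_inv := by
    rintro (_ | ⟨x, xs⟩) <;> simp [nodeFun]

@[simp] theorem node_nil (σ : Perm ℕ) (f : ℕ → Perm (List ℕ)) : node σ f [] = [] := rfl

@[simp] theorem node_cons (σ : Perm ℕ) (f : ℕ → Perm (List ℕ)) (x : ℕ) (xs : List ℕ) :
    node σ f (x :: xs) = σ x :: f x xs := rfl

theorem node_mul (σ τ : Perm ℕ) (f g : ℕ → Perm (List ℕ)) :
    node σ f * node τ g = node (σ * τ) (fun x => f (τ x) * g x) := by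
  ext1 l
  rcases l with _ | ⟨x, xs⟩ <;> simp

@[simp] theorem node_one : node 1 (fun _ => 1) = 1 := by
  ext1 l
  rcases l with _ | ⟨x, xs⟩ <;> simp

theorem node_inv (σ : Perm ℕ) (f : ℕ → Perm (List ℕ)) :
    (node σ f)⁻¹ = node σ⁻¹ (fun x => (f (σ⁻¹ x))⁻¹) := by
  rw [inv_eq_iff_mul_eq_one, node_mul]
  simp

theorem node_one_mul (f g : ℕ → Perm (List ℕ)) :
    node 1 f * node 1 g = node 1 (fun x => f x * g x) := by
  ext1 l
  rcases l with _ | ⟨x, xs⟩ <;> simp

theorem node_one_inv (f : ℕ → Perm (List ℕ)) :
    (node 1 f)⁻¹ = node 1 (fun x => (f x)⁻¹) := by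
  rw [inv_eq_iff_mul_eq_one, node_one_mul]
  simp

theorem node_injective {σ τ : Perm ℕ} {f g : ℕ → Perm (List ℕ)} (h : node σ f = node τ g) :
    σ = τ ∧ f = g := by
  have h1 : ∀ x xs, σ x :: f x xs = τ x :: g x xs := by
    intro x xs
    have := congrArg (fun e : Perm (List ℕ) => e (x :: xs)) h
    simpa using this
  constructor
  · ext1 x
    have := h1 x []
    exact (List.cons.inj this).1
  · funext x
    ext1 xs
    have := h1 x xs
    exact (List.cons.inj this).2

/-- Rooted automorphism. -/
def root : Perm ℕ →* Perm (List ℕ) where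
  toFun σ := node σ (fun _ => 1)
  map_one' := node_one
  map_mul' σ τ := by rw [node_mul]; simp

theorem root_apply (σ : Perm ℕ) : root σ = node σ (fun _ => 1) := rfl

@[simp] theorem root_nil (σ : Perm ℕ) : root σ [] = [] := rfl

@[simp] theorem root_cons (σ : Perm ℕ) (x : ℕ) (xs : List ℕ) : root σ (x :: xs) = σ x :: xs := rfl

theorem root_injective : Function.Injective root := by
  intro σ τ h
  exact (node_injective h).1

/-- Automorphism acting as `g` below the child `x`. -/
def below (x : ℕ) : Perm (List ℕ) →* Perm (List ℕ) where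
  toFun g := node 1 (fun y => if y = x then g else 1)
  map_one' := by simp
  map_mul' g g' := by
    rw [node_mul]
    congr 1
    funext y
    by_cases h : y = x <;> simp [h]

theorem below_apply (x : ℕ) (g : Perm (List ℕ)) : below x g = node 1 (fun y => if y = x then g else 1) := rfl

theorem root_conj_below (σ : Perm ℕ) (x : ℕ) (g : Perm (List ℕ)) :
    root σ * below x g * (root σ)⁻¹ = below (σ x) g := by
  rw [root_apply, below_apply, below_apply, node_inv, node_mul, node_mul]
  congr 1
  · simp
  · funext y
    by_cases h : y = σ x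
    · subst h
      simp
    · have : ¬ (Equiv.symm σ y = x) := by
        intro h'
        apply h
        rw [← h']
        simp
      simp [h, this]

end Pool.Agent.Lib.Branch74
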