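import Pool.Agent.Lib.Branch74.Transfer

/-!
# Computability of the action
-/

namespace Pool.Agent.Lib.Branch74

open Equiv Equiv.Perm

section letters

variable (h : ℕ → ℕ → Bool)

/-- A letter of the first family, as a function of natural numbers. -/
def phiN (D : ℕ) (e : Bool → Bool → Perm (Fin 4)) (n x : ℕ) : ℕ :=
  if x < 4 * (mm n * (n + 2)) then
    4 * (mm n * (x / 4 / mm n) + (x / 4 % mm n + (mm n - 1) + D) % mm n) +
      (e (decide (x / 4 % mm n = 0))
        (vis h (x / 4 / mm n) n && decide (x / 4 % mm n = x / 4 / mm n)) (Fin.ofNat 4 x)).val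
  else x

/-- A letter of the second family, as a function of natural numbers. -/
def psiN (E : Bool × Bool × Bool → ℕ) (n x : ℕ) : ℕ :=
  if x < kk n then
    (x + (kk n - 2) + E (decide (x = 0), decide (x = 1), decide (x = 2))) % kk n
  else x

theorem φc_letter (c : Fin 5 × Bool) : ∃ D e, ∀ h n x, φc h n (FreeGroup.mk [c]) x = phiN h D e n x := by
  obtain ⟨d, e, hd, he⟩ := Φ_letter c
  refine ⟨(d + 1).toNat, e, ?_⟩
  intro h n x
  have hm : 9 ≤ mm n := by unfold mm; omega
  rw [phiN]
  split_ifs with hx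
  · obtain ⟨⟨q, p, y⟩, rfl⟩ := exists_enc n x hx
    rw [φc_apply, he, enc_zone, enc_pos]
    have h1 : (Fin.ofNat 4 (enc n (q, p, y))) = y := by
      apply Fin.ext
      rw [Fin.val_ofNat, enc_mod_four]
    rw [h1]
    simp only
    have h2 : (p + (d : ZMod (mm n))).val = (p.val + (mm n - 1) + (d + 1).toNat) % mm n := by
      rw [← ZMod.val_natCast]
      congr 1
      have h3 : (((d + 1).toNat : ℕ) : ZMod (mm n)) = (d : ZMod (mm n)) + 1 := by
        have h4 : (((d + 1).toNat : ℕ) : ℤ) = d + 1 := by
          rw [Int.toNat_of_nonneg]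
          rw [abs_le] at hd
          omega
        have h5 := congrArg (fun z : ℤ => (z : ZMod (mm n))) h4
        push_cast at h5
        exact h5
      rw [Nat.cast_add, Nat.cast_add, h3, ZMod.natCast_zmod_val, Nat.cast_sub (by omega)]
      simp
      ring
    have h3 : decide (p = 0) = decide (p.val = 0) := by
      rw [decide_eq_decide]
      exact (ZMod.val_eq_zero p).symm
    have h4 : decide (vis h q.val n = true ∧ p = (q.val : ZMod (mm n))) =
        (vis h q.val n && decide (p.val = q.val)) := by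
      have hq : q.val < mm n := by have := q.2; unfold mm; omega
      have h5 : p = (q.val : ZMod (mm n)) ↔ p.val = q.val := by
        constructor
        · intro h6
          rw [h6, ZMod.val_natCast, Nat.mod_eq_of_lt hq]
        · intro h6
          rw [← h6, ZMod.natCast_zmod_val]
      rw [Bool.eq_iff_iff]
      simp [h5]
    rw [h3, h4, ← h2]
    rfl
  · exact φc_fix h n _ (by omega)

theorem ψc_letter (c : Fin 5 × Bool) : ∃ E, ∀ n x, ψc n (FreeGroup.mk [c]) x = psiN E n x := by
  obtain ⟨e, hd, he⟩ := Ψ_letter c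
  refine ⟨fun b => (e b.1 b.2.1 b.2.2 + 2).toNat, ?_⟩
  intro n x
  have hk := kk_ge n
  rw [psiN]
  split_ifs with hx
  · obtain ⟨p, rfl⟩ : ∃ p : ZMod (kk n), p.val = x := ⟨(x : ZMod (kk n)), by
      rw [ZMod.val_natCast, Nat.mod_eq_of_lt hx]⟩
    rw [ψc_apply, he]
    have hv : ∀ a : ℕ, a < kk n → (p = (a : ZMod (kk n)) ↔ p.val = a) := by
      intro a ha
      constructor
      · intro h6
        rw [h6, ZMod.val_natCast, Nat.mod_eq_of_lt ha]
      · intro h6
        rw [← h6, ZMod.natCast_zmod_val]
    have h0 : decide (p = 0) = decide (p.val = 0) := by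
      rw [decide_eq_decide]
      exact (ZMod.val_eq_zero p).symm
    have h1 : decide (p = 1) = decide (p.val = 1) := by
      rw [decide_eq_decide]
      simpa using hv 1 (by omega)
    have h2 : decide (p = 2) = decide (p.val = 2) := by
      rw [decide_eq_decide]
      simpa using hv 2 (by omega)
    rw [h0, h1, h2]
    generalize decide (p.val = 0) = b0
    generalize decide (p.val = 1) = b1
    generalize decide (p.val = 2) = b2
    simp only
    rw [← ZMod.val_natCast]
    congr 1
    have h3 : (((e b0 b1 b2 + 2).toNat : ℕ) : ZMod (kk n)) = (e b0 b1 b2 : ZMod (kk n)) + 2 := by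
      have h4 : (((e b0 b1 b2 + 2).toNat : ℕ) : ℤ) = e b0 b1 b2 + 2 := by
        rw [Int.toNat_of_nonneg]
        have := hd b0 b1 b2
        rw [abs_le] at this
        omega
      have h5 := congrArg (fun z : ℤ => (z : ZMod (kk n))) h4
      push_cast at h5
      exact h5
    rw [Nat.cast_add, Nat.cast_add, h3, ZMod.natCast_zmod_val, Nat.cast_sub (by omega)]
    simp
    ring
  · exact ψc_fix n _ (by omega)

end letters

/-! ### Primitive recursiveness -/

section primrec

open Primrec

theorem primrec_mm : Primrec mm := nat_add.comp (nat_mul.comp (const 4) .id) (const 9)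

theorem primrec_zones : Primrec (fun n => 4 * (mm n * (n + 2))) :=
  nat_mul.comp (const 4) (nat_mul.comp primrec_mm (nat_add.comp .id (const 2)))

theorem primrec_kk : Primrec kk := nat_add.comp primrec_zones (const 1)

theorem primrec_decide_eq {α : Type} [Primcodable α] {f g : α → ℕ} (hf : Primrec f) (hg : Primrec g) :
    Primrec (fun a => decide (f a = g a)) :=
  (Primrec.eq.comp hf hg).decide

variable {h : ℕ → ℕ → Bool} (hh : Primrec₂ h)

include hh in
theorem primrec_vis : Primrec₂ (vis h) := by
  have h1 : Primrec (fun p : ℕ × ℕ => decide (p.1 = p.2 + 1)) :=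
    primrec_decide_eq fst (succ.comp snd)
  have h2 : Primrec (fun p : ℕ × ℕ => decide (p.1 ≤ p.2)) :=
    (Primrec.nat_le.comp fst snd).decide
  have h3 : Primrec (fun p : ℕ × ℕ => !(h p.1 p.2)) := Primrec.not.comp hh
  exact Primrec.or.comp h1 (Primrec.and.comp h2 h3)

include hh in
theorem primrec_phiN (D : ℕ) (e : Bool → Bool → Perm (Fin 4)) : Primrec₂ (phiN h D e) := by
  have hm : Primrec (fun p : ℕ × ℕ => mm p.1) := primrec_mm.comp fst
  have hz : Primrec (fun p : ℕ × ℕ => p.2 / 4) := nat_div.comp snd (const 4)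
  have hq : Primrec (fun p : ℕ × ℕ => p.2 / 4 / mm p.1) := nat_div.comp hz hm
  have hp : Primrec (fun p : ℕ × ℕ => p.2 / 4 % mm p.1) := nat_mod.comp hz hm
  have hy : Primrec (fun p : ℕ × ℕ => (Fin.ofNat 4 p.2 : Fin 4)) := by
    rw [← fin_val_iff]
    exact nat_mod.comp snd (const 4)
  have hb1 : Primrec (fun p : ℕ × ℕ => decide (p.2 / 4 % mm p.1 = 0)) :=
    primrec_decide_eq hp (const 0)
  have hb2 : Primrec (fun p : ℕ × ℕ => (vis h (p.2 / 4 / mm p.1) p.1 &&
      decide (p.2 / 4 % mm p.1 = p.2 / 4 / mm p.1))) :=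
    Primrec.and.comp ((primrec_vis hh).comp hq fst) (primrec_decide_eq hp hq)
  have he : Primrec (fun t : Bool × Bool × Fin 4 => (e t.1 t.2.1 t.2.2).val) := dom_finite _
  have hy' := he.comp (hb1.pair (hb2.pair hy))
  have hp' : Primrec (fun p : ℕ × ℕ => (p.2 / 4 % mm p.1 + (mm p.1 - 1) + D) % mm p.1) :=
    nat_mod.comp (nat_add.comp (nat_add.comp hp (nat_sub.comp hm (const 1))) (const D)) hm
  exact Primrec.ite (Primrec.nat_lt.comp snd (primrec_zones.comp fst))
    (nat_add.comp (nat_mul.comp (const 4) (nat_add.comp (nat_mul.comp hm hq) hp')) hy') snd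

theorem primrec_psiN (E : Bool × Bool × Bool → ℕ) : Primrec₂ (psiN E) := by
  have hk : Primrec (fun p : ℕ × ℕ => kk p.1) := primrec_kk.comp fst
  have hb : Primrec (fun p : ℕ × ℕ => (decide (p.2 = 0), decide (p.2 = 1), decide (p.2 = 2))) :=
    (primrec_decide_eq snd (const 0)).pair
      ((primrec_decide_eq snd (const 1)).pair (primrec_decide_eq snd (const 2)))
  have hE : Primrec E := dom_finite _
  exact Primrec.ite (Primrec.nat_lt.comp snd hk)
    (nat_mod.comp (nat_add.comp (nat_add.comp snd (nat_sub.comp hk (const 2))) (hE.comp hb)) hk) snd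

include hh in
theorem primrec_φc (c : Fin 5 × Bool) : Primrec₂ (fun n x => φc h n (FreeGroup.mk [c]) x) := by
  obtain ⟨D, e, hDe⟩ := φc_letter c
  exact (primrec_phiN hh D e).of_eq (fun n x => (hDe h n x).symm)

theorem primrec_ψc (c : Fin 5 × Bool) : Primrec₂ (fun n x => ψc n (FreeGroup.mk [c]) x) := by
  obtain ⟨E, hE⟩ := ψc_letter c
  exact (primrec_psiN E).of_eq (fun n x => (hE n x).symm)

/-- position of the first non-zero letter -/
def zi (l : List ℕ) : ℕ := l.findIdx (fun x => !(decide (x = 0)))

theorem primrec_zi : Primrec zi := by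
  have h1 : Primrec₂ (fun (_ : List ℕ) (x : ℕ) => !(decide (x = 0))) :=
    Primrec.not.comp (primrec_decide_eq snd (const 0))
  exact list_findIdx Primrec.id h1

/-- explicit formula for the spinal automorphisms -/
theorem spFun_formula {Γ : Type} [Group Γ] (D : Data Γ) (γ : Γ) (l : List ℕ) : ∀ n,
    D.spFun γ n l = if l[zi l]? = some 1 then l.modify (zi l + 1) (D.φ (n + zi l + 1) γ) else
      if l[zi l]? = some 2 then l.modify (zi l + 1) (D.ψ (n + zi l + 1) γ) else l := by
  induction l with
  | nil => intro n; rfl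
  | cons x xs ih =>
    intro n
    rw [Data.spFun]
    by_cases h0 : x = 0
    · subst h0
      have hz : zi (0 :: xs) = zi xs + 1 := by simp [zi, List.findIdx_cons]
      rw [if_pos rfl, ih (n + 1), hz]
      simp only [List.getElem?_cons_succ, List.modify_succ_cons]
      rw [show n + 1 + zi xs + 1 = n + (zi xs + 1) + 1 by omega]
      split_ifs <;> rfl
    · have hz : zi (x :: xs) = 0 := by simp [zi, List.findIdx_cons, h0]
      rw [if_neg h0, hz]
      simp only [List.getElem?_cons_zero, List.modify_succ_cons, Option.some.injEq]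
      by_cases h1 : x = 1
      · subst h1
        rw [if_pos rfl, if_pos rfl]
        rcases xs with _ | ⟨y, ys⟩
        · rfl
        · rfl
      · rw [if_neg h1, if_neg h1]
        by_cases h2 : x = 2
        · subst h2
          rw [if_pos rfl, if_pos rfl]
          rcases xs with _ | ⟨y, ys⟩
          · rfl
          · rfl
        · rw [if_neg h2, if_neg h2]

theorem primrec_modify_zi {g : ℕ → ℕ → ℕ} (hg : Primrec₂ g) :
    Primrec (fun l : List ℕ => l.modify (zi l + 1) (g (zi l + 1))) := by
  have h1 := list_modify' hg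
  have h2 : Primrec (fun l : List ℕ => (zi l + 1, zi l + 1)) :=
    (succ.comp primrec_zi).pair (succ.comp primrec_zi)
  exact h1.comp Primrec.id h2

theorem primrec_spine {g g' : ℕ → ℕ → ℕ} (hg : Primrec₂ g) (hg' : Primrec₂ g') :
    Primrec (fun l : List ℕ => if l[zi l]? = some 1 then l.modify (zi l + 1) (g (zi l + 1)) else
      if l[zi l]? = some 2 then l.modify (zi l + 1) (g' (zi l + 1)) else l) := by
  have hx : Primrec (fun l : List ℕ => l[zi l]?) := list_getElem?.comp Primrec.id primrec_zi
  have h1 : PrimrecPred (fun l : List ℕ => l[zi l]? = some 1) := Primrec.eq.comp hx (const (some 1))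
  have h2 : PrimrecPred (fun l : List ℕ => l[zi l]? = some 2) := Primrec.eq.comp hx (const (some 2))
  exact Primrec.ite h1 (primrec_modify_zi hg) (Primrec.ite h2 (primrec_modify_zi hg') Primrec.id)

theorem sp_formula (h : ℕ → ℕ → Bool) (γ : FreeGroup (Fin 5)) (l : List ℕ) :
    (DD h).sp 0 γ l = if l[zi l]? = some 1 then l.modify (zi l + 1) (φc h (zi l + 1) γ) else
      if l[zi l]? = some 2 then l.modify (zi l + 1) (ψc (zi l + 1) γ) else l := by
  have := spFun_formula (DD h) γ l 0
  rw [zero_add] at this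
  exact this

include hh in
theorem primrec_sp (c : Fin 5 × Bool) : Primrec (fun l => (DD h).sp 0 (FreeGroup.mk [c]) l) := by
  refine (primrec_spine (primrec_φc hh c) (primrec_ψc c)).of_eq ?_
  intro l
  exact (sp_formula h _ l).symm

theorem primrec_root_ψ (c : Fin 5 × Bool) : Primrec (fun l => root (ψc 0 (FreeGroup.mk [c])) l) := by
  have h1 : Primrec₂ (fun (_ : ℕ) x => ψc 0 (FreeGroup.mk [c]) x) :=
    (primrec_ψc c).comp (const 0) snd
  have h2 : Primrec (fun l : List ℕ => l.modify 0 (ψc 0 (FreeGroup.mk [c]))) :=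
    (list_modify' h1).comp Primrec.id (const (0, 0))
  refine h2.of_eq ?_
  intro l
  rcases l with _ | ⟨x, xs⟩
  · rfl
  · rfl

/-- all words of length at most `L` with letters below `B` -/
def tl (B : ℕ) : ℕ → List (List ℕ)
  | 0 => [[]]
  | L + 1 => [] :: (List.range B).flatMap (fun x => (tl B L).map (fun l => x :: l))

theorem mem_tl {B : ℕ} (L : ℕ) : ∀ (l : List ℕ), l.length ≤ L → (∀ x ∈ l, x < B) → l ∈ tl B L := by
  induction L with
  | zero =>
    intro l hl _
    rw [Nat.le_zero, List.length_eq_zero_iff] at hl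
    subst hl
    simp [tl]
  | succ L ih =>
    intro l hl hB
    rcases l with _ | ⟨x, xs⟩
    · simp [tl]
    · rw [tl]
      refine List.mem_cons_of_mem _ ?_
      rw [List.mem_flatMap]
      refine ⟨x, List.mem_range.mpr (hB x (by simp)), ?_⟩
      rw [List.mem_map]
      refine ⟨xs, ih xs (by simpa using hl) (fun y hy => hB y (by simp [hy])), rfl⟩

theorem primrec_tl : Primrec₂ tl := by
  have hstep : Primrec (fun t : (ℕ × ℕ) × (ℕ × List (List ℕ)) =>
      [] :: (List.range t.1.1).flatMap (fun x => t.2.2.map (fun l => x :: l))) := by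
    have h1 : Primrec (fun t : (ℕ × ℕ) × (ℕ × List (List ℕ)) => List.range t.1.1) :=
      list_range.comp (fst.comp fst)
    have h2 : Primrec (fun t : ((ℕ × ℕ) × (ℕ × List (List ℕ))) × ℕ =>
        t.1.2.2.map (fun l => t.2 :: l)) :=
      list_map (snd.comp (snd.comp fst)) (list_cons.comp (snd.comp fst) snd)
    exact list_cons.comp (const []) (list_flatMap h1 h2)
  have h3 := Primrec.nat_rec' (f := fun p : ℕ × ℕ => p.2)
    (g := fun _ => ([[]] : List (List ℕ)))
    (h := fun (p : ℕ × ℕ) (q : ℕ × List (List ℕ)) =>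
      [] :: (List.range p.1).flatMap (fun x => q.2.map (fun l => x :: l)))
    snd (const [[]]) hstep
  refine h3.of_eq ?_
  rintro ⟨B, L⟩
  change Nat.rec (motive := fun _ => List (List ℕ)) _ _ L = tl B L
  induction L with
  | zero => rfl
  | succ L ih =>
    rw [tl, ← ih]

end primrec

end Pool.Agent.Lib.Branch74
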