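import Pool.Agent.Lib.Branch74.Marks

/-!
# The pairs of elements whose conjugacy encodes the relation
-/

namespace Pool.Agent.Lib.Branch74

open Equiv Equiv.Perm

/-- letters -/
def la : FreeGroup (Fin 5) := FreeGroup.of 0

/-- letters -/
def lb : FreeGroup (Fin 5) := FreeGroup.of 1

/-- letters -/
def lt : FreeGroup (Fin 5) := FreeGroup.of 2

/-- commutator of `a` with a translate of `b` -/
def zz (i : ℕ) : FreeGroup (Fin 5) :=
  la * ((lt ^ i)⁻¹ * lb * lt ^ i) * la⁻¹ * ((lt ^ i)⁻¹ * lb * lt ^ i)⁻¹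

/-- first element of the pair -/
def v1 (i : ℕ) : FreeGroup (Fin 5) := zz i * (lt * zz i * lt⁻¹)

/-- second element of the pair -/
def v2 (i : ℕ) : FreeGroup (Fin 5) := zz i * ((lt ^ 2) * zz i * (lt ^ 2)⁻¹)

section

variable (h : ℕ → ℕ → Bool)

theorem Φ_la (n : ℕ) : Φ h n la = bl (FA n) := by rw [Φ, la, FreeGroup.lift_apply_of]; rfl

theorem Φ_lb (n : ℕ) : Φ h n lb = bl (FB h n) := by rw [Φ, lb, FreeGroup.lift_apply_of]; rfl

theorem Φ_lt (n : ℕ) : Φ h n lt = rel (rZ (mm n)) := by rw [Φ, lt, FreeGroup.lift_apply_of]; rfl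

/-- the block function of the commutator -/
def ZZ (n i : ℕ) : Fin (n + 2) → ZMod (mm n) → Perm (Fin 4) :=
  fun q p => if p = 0 ∧ vis h q.val n = true ∧ (i : ZMod (mm n)) = (q.val : ZMod (mm n)) then ζ4 else 1

theorem Φ_zz (n i : ℕ) : Φ h n (zz i) = bl (ZZ h n i) := by
  have hb : Φ h n ((lt ^ i)⁻¹ * lb * lt ^ i) = bl (fun q p => FB h n q (p + i)) := by
    rw [map_mul, map_mul, map_inv, map_pow, Φ_lb, Φ_lt, ← map_pow, rel_conj']
    congr 1
    funext q p
    rw [rZ_pow]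
  rw [zz, map_mul, map_mul, map_mul, map_inv, map_inv, hb, Φ_la, ← map_inv, ← map_inv, ← map_mul,
    ← map_mul, ← map_mul]
  congr 1
  funext q p
  simp only [Pi.mul_apply, Pi.inv_apply, FA, FB, ZZ]
  by_cases hp : p = 0
  · subst hp
    rw [if_pos rfl, zero_add]
    by_cases hv : vis h q.val n = true ∧ (i : ZMod (mm n)) = (q.val : ZMod (mm n))
    · rw [if_pos hv, if_pos ⟨rfl, hv⟩, ζ4]
    · rw [if_neg hv, if_neg (fun hc => hv hc.2)]
      simp
  · rw [if_neg hp, if_neg (show ¬ (p = 0 ∧ vis h q.val n = true ∧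
      (i : ZMod (mm n)) = (q.val : ZMod (mm n))) from fun hc => hp hc.1)]
    simp

theorem Φ_v1 (n i : ℕ) : Φ h n (v1 i) = bl (fun q p => ZZ h n i q p * ZZ h n i q (p - 1)) := by
  rw [v1, map_mul, map_mul, map_mul, map_inv, Φ_zz, Φ_lt, rel_conj, ← map_mul]
  congr 1
  funext q p
  rw [Pi.mul_apply, Pi.mul_apply, rZ_inv_apply]

theorem Φ_v2 (n i : ℕ) : Φ h n (v2 i) = bl (fun q p => ZZ h n i q p * ZZ h n i q (p - 2)) := by
  rw [v2, map_mul, map_mul, map_mul, map_inv, Φ_zz, map_pow, Φ_lt, ← map_pow, rel_conj, ← map_mul]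
  congr 1
  funext q p
  rw [Pi.mul_apply, Pi.mul_apply]
  have : (rZ (mm n) ^ 2)⁻¹ p = p - 2 := by
    rw [Perm.inv_eq_iff_eq, rZ_pow]
    simp
  rw [this]

theorem Ψ_zero (n : ℕ) (i : Fin 5) (hi : i.val < 3) : Ψ n (FreeGroup.of i) = 1 := by
  rw [Ψ, FreeGroup.lift_apply_of]
  fin_cases i
  · rfl
  · rfl
  · rfl
  · simp at hi
  · simp at hi

theorem Ψ_zz (n i : ℕ) : Ψ n (zz i) = 1 := by
  have h0 : Ψ n la = 1 := Ψ_zero n 0 (by decide)
  have h1 : Ψ n lb = 1 := Ψ_zero n 1 (by decide)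
  have h2 : Ψ n lt = 1 := Ψ_zero n 2 (by decide)
  simp [zz, h0, h1, h2]

theorem Ψ_v1 (n i : ℕ) : Ψ n (v1 i) = 1 := by
  have h2 : Ψ n lt = 1 := Ψ_zero n 2 (by decide)
  simp [v1, Ψ_zz, h2]

theorem Ψ_v2 (n i : ℕ) : Ψ n (v2 i) = 1 := by
  have h2 : Ψ n lt = 1 := Ψ_zero n 2 (by decide)
  simp [v2, Ψ_zz, h2]

/-- the three cycle of blocks `1 → 2 → 3 → 1` -/
def cyc (m : ℕ) : Perm (ZMod m) := swap 1 2 * swap 2 3

theorem mm_ne (n : ℕ) {a b : ℕ} (ha : a < 9) (hb : b < 9) (hab : a ≠ b) :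
    (a : ZMod (mm n)) ≠ (b : ZMod (mm n)) := by
  apply natCast_ne
  · unfold mm; omega
  · unfold mm; omega
  · exact hab

theorem cyc_cube (n : ℕ) : cyc (mm n) ^ 3 = 1 := by
  have h12 : (1 : ZMod (mm n)) ≠ 2 := by
    simpa using mm_ne n (a := 1) (b := 2) (by omega) (by omega) (by omega)
  have h13 : (1 : ZMod (mm n)) ≠ 3 := by
    simpa using mm_ne n (a := 1) (b := 3) (by omega) (by omega) (by omega)
  have h23 : (2 : ZMod (mm n)) ≠ 3 := by
    simpa using mm_ne n (a := 2) (b := 3) (by omega) (by omega) (by omega)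
  have h : (cyc (mm n)).IsThreeCycle := by
    have h : cyc (mm n) = swap (2 : ZMod (mm n)) 1 * swap 2 3 := by
      rw [cyc, swap_comm]
    rw [h]
    exact isThreeCycle_swap_mul_swap_same h12.symm h23 h13
  rw [← h.orderOf]
  exact pow_orderOf_eq_one _

theorem cyc_inv (m : ℕ) : (cyc m)⁻¹ = swap 2 3 * swap 1 2 := by
  rw [cyc, mul_inv_rev, swap_inv, swap_inv]

/-- The two elements are conjugate at every level. -/
theorem φ_conj (n i : ℕ) : ∃ σ ∈ A (kk n), σ * φc h n (v1 i) * σ⁻¹ = φc h n (v2 i) := by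
  refine ⟨viaEmbeddingHom (encE n) (rel (cyc (mm n))), ?_, ?_⟩
  · apply mem_A_of_odd_enc (j := 1)
    rw [← map_pow, cyc_cube, map_one]
  · change viaEmbeddingHom (encE n) (rel (cyc (mm n))) * viaEmbeddingHom (encE n) (Φ h n (v1 i)) *
      (viaEmbeddingHom (encE n) (rel (cyc (mm n))))⁻¹ = viaEmbeddingHom (encE n) (Φ h n (v2 i))
    rw [← map_inv, ← map_mul, ← map_mul, Φ_v1, Φ_v2, rel_conj]
    congr 2
    funext q p
    have hn : ∀ (a b : ℕ), a < 9 → b < 9 → a ≠ b → (a : ZMod (mm n)) ≠ (b : ZMod (mm n)) :=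
      fun a b ha hb hab => mm_ne n ha hb hab
    have h01 : (0 : ZMod (mm n)) ≠ 1 := by simpa using hn 0 1 (by omega) (by omega) (by omega)
    have h02 : (0 : ZMod (mm n)) ≠ 2 := by simpa using hn 0 2 (by omega) (by omega) (by omega)
    have h03 : (0 : ZMod (mm n)) ≠ 3 := by simpa using hn 0 3 (by omega) (by omega) (by omega)
    have h12 : (1 : ZMod (mm n)) ≠ 2 := by simpa using hn 1 2 (by omega) (by omega) (by omega)
    have h13 : (1 : ZMod (mm n)) ≠ 3 := by simpa using hn 1 3 (by omega) (by omega) (by omega)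
    have h23 : (2 : ZMod (mm n)) ≠ 3 := by simpa using hn 2 3 (by omega) (by omega) (by omega)
    have hZ : ∀ p : ZMod (mm n), p ≠ 0 → ZZ h n i q p = 1 := by
      intro p hp
      rw [ZZ, if_neg (fun hc => hp hc.1)]
    rw [cyc_inv]
    by_cases hp0 : p = 0
    · subst hp0
      have e1 : (swap 2 3 * swap 1 2 : Perm (ZMod (mm n))) 0 = 0 := by
        rw [Perm.mul_apply, swap_apply_of_ne_of_ne h01 h02, swap_apply_of_ne_of_ne h02 h03]
      rw [e1, hZ (0 - 1) (by simpa using h01.symm), hZ (0 - 2) (by simpa using h02.symm)]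
    · by_cases hp1 : p = 1
      · subst hp1
        have e1 : (swap 2 3 * swap 1 2 : Perm (ZMod (mm n))) 1 = 3 := by
          rw [Perm.mul_apply, swap_apply_left, swap_apply_left]
        have e2 : (3 : ZMod (mm n)) - 1 ≠ 0 := sub_ne_zero.mpr h13.symm
        have e3 : (1 : ZMod (mm n)) - 2 ≠ 0 := sub_ne_zero.mpr h12
        rw [e1, hZ 3 h03.symm, hZ (3 - 1) e2, hZ 1 h01.symm, hZ (1 - 2) e3]
      · by_cases hp2 : p = 2
        · subst hp2
          have e1 : (swap 2 3 * swap 1 2 : Perm (ZMod (mm n))) 2 = 1 := by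
            rw [Perm.mul_apply, swap_apply_right, swap_apply_of_ne_of_ne h12 h13]
          rw [e1, hZ 1 h01.symm, hZ 2 h02.symm, sub_self, sub_self]
        · by_cases hp3 : p = 3
          · subst hp3
            have e1 : (swap 2 3 * swap 1 2 : Perm (ZMod (mm n))) 3 = 2 := by
              rw [Perm.mul_apply, swap_apply_of_ne_of_ne h13.symm h23.symm, swap_apply_right]
            have e2 : (2 : ZMod (mm n)) - 1 ≠ 0 := sub_ne_zero.mpr h12.symm
            have e3 : (3 : ZMod (mm n)) - 2 ≠ 0 := sub_ne_zero.mpr h23.symm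
            rw [e1, hZ 2 h02.symm, hZ (2 - 1) e2, hZ 3 h03.symm, hZ (3 - 2) e3]
          · have e1 : (swap 2 3 * swap 1 2 : Perm (ZMod (mm n))) p = p := by
              rw [Perm.mul_apply, swap_apply_of_ne_of_ne hp1 hp2, swap_apply_of_ne_of_ne hp2 hp3]
            rw [e1, hZ (p - 1) (sub_ne_zero.mpr hp1), hZ (p - 2) (sub_ne_zero.mpr hp2)]

/-- invisible marks give trivial elements -/
theorem φ_trivial {n i : ℕ} (hi : i ≤ n) (hh : h i n = true) :
    φc h n (v1 i) = 1 ∧ φc h n (v2 i) = 1 := by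
  have hZ : ZZ h n i = fun _ _ => 1 := by
    funext q p
    rw [ZZ]
    apply if_neg
    rintro ⟨-, hv, hq⟩
    have hq2 := q.2
    by_cases hiq : i = q.val
    · rw [← hiq, vis] at hv
      simp [hh] at hv
      omega
    · exact natCast_ne (k := mm n) (a := i) (b := q.val) (by unfold mm; omega) (by unfold mm; omega)
        hiq hq
  rw [φc_eq_one_iff, φc_eq_one_iff, Φ_v1, Φ_v2, hZ]
  constructor <;> exact map_one bl

theorem Φ_shift (n : ℕ) (γ : FreeGroup (Fin 5)) :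
    ∃ e : ZMod (mm n), ∀ q p y, (Φ h n γ (q, p, y)).1 = q ∧ (Φ h n γ (q, p, y)).2.1 = p + e := by
  induction γ using FreeGroup.induction_on with
  | C1 => exact ⟨0, fun q p y => by simp⟩
  | of j =>
    rw [Φ, FreeGroup.lift_apply_of]
    fin_cases j
    · exact ⟨0, fun q p y => by simp [Φl]⟩
    · exact ⟨0, fun q p y => by simp [Φl]⟩
    · exact ⟨1, fun q p y => by simp [Φl]⟩
    · exact ⟨0, fun q p y => by simp [Φl]⟩
    · exact ⟨0, fun q p y => by simp [Φl]⟩
  | inv_of j ih =>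
    obtain ⟨e, he⟩ := ih
    refine ⟨-e, fun q p y => ?_⟩
    have h1 := he ((Φ h n (FreeGroup.of j)⁻¹ (q, p, y)).1) ((Φ h n (FreeGroup.of j)⁻¹ (q, p, y)).2.1)
      ((Φ h n (FreeGroup.of j)⁻¹ (q, p, y)).2.2)
    have h2 : Φ h n (FreeGroup.of j) (Φ h n (FreeGroup.of j)⁻¹ (q, p, y)) = (q, p, y) := by
      rw [map_inv]; simp
    rw [h2] at h1
    simp only at h1
    refine ⟨h1.1.symm, ?_⟩
    rw [← sub_eq_add_neg, eq_sub_iff_add_eq]
    exact h1.2.symm
  | mul γ γ' ih ih' =>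
    obtain ⟨e, he⟩ := ih
    obtain ⟨e', he'⟩ := ih'
    refine ⟨e' + e, fun q p y => ?_⟩
    rw [map_mul, Perm.mul_apply]
    have h1 := he' q p y
    have h2 := he ((Φ h n γ' (q, p, y)).1) ((Φ h n γ' (q, p, y)).2.1) ((Φ h n γ' (q, p, y)).2.2)
    refine ⟨h2.1.trans h1.1, ?_⟩
    rw [h2.2, h1.2]
    ring

/-- visible marks: first element moves exactly the blocks `0` and `1` of its zone -/
theorem v1_moves {n i : ℕ} (hi : i ≤ n) (hh : h i n = false) (p : ZMod (mm n)) :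
    (∀ y, Φ h n (v1 i) (⟨i, by omega⟩, p, y) = (⟨i, by omega⟩, p, y)) ↔ ¬ (p = 0 ∨ p = 1) := by
  have hvis : vis h i n = true := by rw [vis]; simp [hh, hi]
  have h01 : (1 : ZMod (mm n)) ≠ 0 := by
    simpa using mm_ne n (a := 1) (b := 0) (by omega) (by omega) (by omega)
  have hZ0 : ZZ h n i ⟨i, by omega⟩ 0 = ζ4 := by
    rw [ZZ]; exact if_pos ⟨rfl, hvis, rfl⟩
  have hZ : ∀ p : ZMod (mm n), p ≠ 0 → ZZ h n i ⟨i, by omega⟩ p = 1 := by
    intro p hp
    rw [ZZ, if_neg (fun hc => hp hc.1)]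
  rw [Φ_v1]
  constructor
  · intro hfix hp
    apply ζ4_ne
    ext1 y
    have h1 := hfix y
    rw [bl_apply] at h1
    have h2 := (Prod.ext_iff.mp (Prod.ext_iff.mp h1).2).2
    simp only at h2
    rcases hp with rfl | rfl
    · rw [hZ0, hZ (0 - 1) (by simpa using h01), mul_one] at h2
      exact h2
    · rw [hZ 1 h01, sub_self, hZ0, one_mul] at h2
      exact h2
  · intro hp y
    rw [not_or] at hp
    rw [bl_apply, hZ p hp.1, hZ (p - 1) (sub_ne_zero.mpr hp.2)]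
    rfl

/-- visible marks: second element moves exactly the blocks `0` and `2` of its zone -/
theorem v2_moves {n i : ℕ} (hi : i ≤ n) (hh : h i n = false) (p : ZMod (mm n)) :
    (∀ y, Φ h n (v2 i) (⟨i, by omega⟩, p, y) = (⟨i, by omega⟩, p, y)) ↔ ¬ (p = 0 ∨ p = 2) := by
  have hvis : vis h i n = true := by rw [vis]; simp [hh, hi]
  have h02 : (2 : ZMod (mm n)) ≠ 0 := by
    simpa using mm_ne n (a := 2) (b := 0) (by omega) (by omega) (by omega)
  have hZ0 : ZZ h n i ⟨i, by omega⟩ 0 = ζ4 := by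
    rw [ZZ]; exact if_pos ⟨rfl, hvis, rfl⟩
  have hZ : ∀ p : ZMod (mm n), p ≠ 0 → ZZ h n i ⟨i, by omega⟩ p = 1 := by
    intro p hp
    rw [ZZ, if_neg (fun hc => hp hc.1)]
  rw [Φ_v2]
  constructor
  · intro hfix hp
    apply ζ4_ne
    ext1 y
    have h1 := hfix y
    rw [bl_apply] at h1
    have h2 := (Prod.ext_iff.mp (Prod.ext_iff.mp h1).2).2
    simp only at h2
    rcases hp with rfl | rfl
    · rw [hZ0, hZ (0 - 2) (by simpa using h02), mul_one] at h2
      exact h2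
    · rw [hZ 2 h02, sub_self, hZ0, one_mul] at h2
      exact h2
  · intro hp y
    rw [not_or] at hp
    rw [bl_apply, hZ p hp.1, hZ (p - 2) (sub_ne_zero.mpr hp.2)]
    rfl

theorem φ_not_conj {n i : ℕ} (hi : i ≤ n) (hh : h i n = false) (γ : FreeGroup (Fin 5)) :
    φc h n (γ * v1 i * γ⁻¹) ≠ φc h n (v2 i) := by
  intro heq
  rw [φc_eq_iff] at heq
  obtain ⟨e, he⟩ := Φ_shift h n γ
  -- the first element moves block `p` iff the second one moves block `p + e`
  have key : ∀ p : ZMod (mm n), (p = 0 ∨ p = 1) ↔ (p + e = 0 ∨ p + e = 2) := by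
    intro p
    rw [← not_iff_not, ← v1_moves h hi hh, ← v2_moves h hi hh, ← heq, map_mul, map_mul, map_inv]
    have hpt : ∀ (q : Fin (n + 2)) (p : ZMod (mm n)) (y : Fin 4),
        ∃ y', Φ h n γ (q, p, y) = (q, p + e, y') := by
      intro q p y
      obtain ⟨h1, h2⟩ := he q p y
      exact ⟨(Φ h n γ (q, p, y)).2.2, Prod.ext h1 (Prod.ext h2 rfl)⟩
    constructor
    · intro hfix y
      -- pull back the point
      have hq : ∃ y', (Φ h n γ)⁻¹ (⟨i, by omega⟩, p + e, y) = (⟨i, by omega⟩, p, y') := by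
        obtain ⟨h1, h2⟩ := he ((Φ h n γ)⁻¹ (⟨i, by omega⟩, p + e, y)).1
          ((Φ h n γ)⁻¹ (⟨i, by omega⟩, p + e, y)).2.1 ((Φ h n γ)⁻¹ (⟨i, by omega⟩, p + e, y)).2.2
        have h3 : Φ h n γ ((Φ h n γ)⁻¹ (⟨i, by omega⟩, p + e, y)) = (⟨i, by omega⟩, p + e, y) := by
          rw [← Perm.mul_apply, mul_inv_cancel]; rfl
        rw [h3] at h1 h2
        simp only at h1 h2
        refine ⟨((Φ h n γ)⁻¹ (⟨i, by omega⟩, p + e, y)).2.2, Prod.ext h1.symm (Prod.ext ?_ rfl)⟩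
        exact (add_right_cancel h2).symm
      obtain ⟨y', hy'⟩ := hq
      rw [Perm.mul_apply, Perm.mul_apply, hy', hfix y', ← hy', ← Perm.mul_apply, mul_inv_cancel]
      rfl
    · intro hfix y
      obtain ⟨y', hy'⟩ := hpt ⟨i, by omega⟩ p y
      have h1 := hfix y'
      rw [← hy', ← Perm.mul_apply, mul_assoc, inv_mul_cancel, mul_one, Perm.mul_apply] at h1
      exact (Φ h n γ).injective h1
  have hn : ∀ (a b : ℕ), a < 9 → b < 9 → a ≠ b → (a : ZMod (mm n)) ≠ (b : ZMod (mm n)) :=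
    fun a b ha hb hab => mm_ne n ha hb hab
  have h12 : (1 : ZMod (mm n)) ≠ 2 := by simpa using hn 1 2 (by omega) (by omega) (by omega)
  have h10 : (1 : ZMod (mm n)) ≠ 0 := by simpa using hn 1 0 (by omega) (by omega) (by omega)
  have h30 : (3 : ZMod (mm n)) ≠ 0 := by simpa using hn 3 0 (by omega) (by omega) (by omega)
  have h32 : (3 : ZMod (mm n)) ≠ 2 := by simpa using hn 3 2 (by omega) (by omega) (by omega)
  have k0 := (key 0).mp (Or.inl rfl)
  have k1 := (key 1).mp (Or.inr rfl)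
  rw [zero_add] at k0
  rcases k0 with rfl | rfl
  · rw [add_zero] at k1
    rcases k1 with k1 | k1
    · exact h10 k1
    · exact h12 k1
  · have e3 : (1 : ZMod (mm n)) + 2 = 3 := by norm_num
    rw [e3] at k1
    rcases k1 with k1 | k1
    · exact h30 k1
    · exact h32 k1

theorem φ_nontrivial {n i : ℕ} (hi : i ≤ n) (hh : h i n = false) : φc h n (v1 i) ≠ 1 := by
  intro heq
  rw [φc_eq_one_iff] at heq
  have := (v1_moves h hi hh 0).mp (fun y => by rw [heq]; rfl)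
  exact this (Or.inl rfl)

end

end Pool.Agent.Lib.Branch74
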