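import Pool.Agent.Lib.Branch74.Basic
import Pool.Agent.Lib.Branch74.Alt

/-!
# A family of spinal groups

From a group `Γ` with homomorphisms to finite alternating groups we construct self-reproducing
families of groups acting on finite words.
-/

namespace Pool.Agent.Lib.Branch74

open Equiv Equiv.Perm

open scoped commutatorElement

/-- The data for a family of spinal groups. -/
structure Data (Γ : Type) [Group Γ] where
  /-- degrees -/
  k : ℕ → ℕ
  /-- first family of homomorphisms -/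
  φ : ℕ → Γ →* Perm ℕ
  /-- second family of homomorphisms -/
  ψ : ℕ → Γ →* Perm ℕ
  hk : ∀ n, 5 ≤ k n
  hφ : ∀ n γ, φ n γ ∈ A (k n)
  hψ : ∀ n, (ψ n).range = A (k n)

variable {Γ : Type} [Group Γ] (D : Data Γ)

namespace Data

theorem hψ' (n : ℕ) (γ : Γ) : D.ψ n γ ∈ A (D.k n) := by
  rw [← D.hψ n]
  exact ⟨γ, rfl⟩

/-- The spinal automorphism attached to `γ`. -/
def spFun (γ : Γ) : ℕ → List ℕ → List ℕ
  | _, [] => []
  | n, x :: xs => x :: (if x = 0 then spFun γ (n + 1) xs else
      if x = 1 then root (D.φ (n + 1) γ) xs else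
      if x = 2 then root (D.ψ (n + 1) γ) xs else xs)

theorem spFun_one (l : List ℕ) : ∀ n, D.spFun 1 n l = l := by
  induction l with
  | nil => intro n; rfl
  | cons x xs ih =>
    intro n
    simp [spFun, ih]

theorem spFun_mul (γ γ' : Γ) (l : List ℕ) :
    ∀ n, D.spFun (γ * γ') n l = D.spFun γ n (D.spFun γ' n l) := by
  induction l with
  | nil => intro n; rfl
  | cons x xs ih =>
    intro n
    by_cases h0 : x = 0
    · simp [spFun, ih, h0]
    · by_cases h1 : x = 1
      · simp [spFun, h1]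
      · by_cases h2 : x = 2
        · simp [spFun, h2]
        · simp [spFun, h0, h1, h2]

/-- The spinal automorphisms form a homomorphic image of `Γ`. -/
def sp (n : ℕ) : Γ →* Perm (List ℕ) :=
  MonoidHom.toHomPerm
    { toFun := fun γ => (D.spFun γ n : List ℕ → List ℕ)
      map_one' := by funext l; exact D.spFun_one l n
      map_mul' := fun γ γ' => by funext l; exact D.spFun_mul γ γ' l n }

theorem sp_apply (n : ℕ) (γ : Γ) (l : List ℕ) : D.sp n γ l = D.spFun γ n l := rfl

/-- Sections of the spinal automorphisms. -/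
def sec (n : ℕ) (γ : Γ) (x : ℕ) : Perm (List ℕ) :=
  if x = 0 then D.sp (n + 1) γ else
    if x = 1 then root (D.φ (n + 1) γ) else
      if x = 2 then root (D.ψ (n + 1) γ) else 1

theorem sp_eq_node (n : ℕ) (γ : Γ) : D.sp n γ = node 1 (D.sec n γ) := by
  ext1 l
  rcases l with _ | ⟨x, xs⟩
  · rfl
  · rw [sp_apply, node_cons, spFun, sec]
    by_cases h0 : x = 0
    · simp [h0, sp_apply]
    · by_cases h1 : x = 1
      · simp [h1]
      · by_cases h2 : x = 2
        · simp [h2]
        · simp [h0, h1, h2]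

theorem sec_zero (n : ℕ) (γ : Γ) : D.sec n γ 0 = D.sp (n + 1) γ := by simp [sec]

theorem sec_one (n : ℕ) (γ : Γ) : D.sec n γ 1 = root (D.φ (n + 1) γ) := by simp [sec]

theorem sec_two (n : ℕ) (γ : Γ) : D.sec n γ 2 = root (D.ψ (n + 1) γ) := by simp [sec]

theorem sec_of_three_le (n : ℕ) (γ : Γ) {x : ℕ} (hx : 3 ≤ x) : D.sec n γ x = 1 := by
  rw [sec, if_neg (by omega), if_neg (by omega), if_neg (by omega)]

/-- The group at level `n`. -/
noncomputable def G (n : ℕ) : Subgroup (Perm (List ℕ)) :=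
  Subgroup.closure (root '' (A (D.k n) : Set (Perm ℕ)) ∪ Set.range (D.sp n))

theorem root_mem {n : ℕ} {σ : Perm ℕ} (h : σ ∈ A (D.k n)) : root σ ∈ D.G n :=
  Subgroup.subset_closure (Or.inl ⟨σ, h, rfl⟩)

theorem sp_mem (n : ℕ) (γ : Γ) : D.sp n γ ∈ D.G n :=
  Subgroup.subset_closure (Or.inr ⟨γ, rfl⟩)

theorem sec_mem (n : ℕ) (γ : Γ) (x : ℕ) : D.sec n γ x ∈ D.G (n + 1) := by
  rw [sec]
  split_ifs
  · exact D.sp_mem _ _
  · exact D.root_mem (D.hφ _ _)
  · exact D.root_mem (D.hψ' _ _)
  · exact one_mem _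

/-- Elements of `G n` decompose. -/
theorem decompose {n : ℕ} {g : Perm (List ℕ)} (hg : g ∈ D.G n) :
    ∃ σ f, g = node σ f ∧ σ ∈ A (D.k n) ∧ (∀ x, f x ∈ D.G (n + 1)) ∧ (∀ x, D.k n ≤ x → f x = 1) := by
  induction hg using Subgroup.closure_induction with
  | mem g hg =>
    rcases hg with ⟨σ, hσ, rfl⟩ | ⟨γ, rfl⟩
    · exact ⟨σ, fun _ => 1, rfl, hσ, fun _ => one_mem _, fun _ _ => rfl⟩
    · refine ⟨1, D.sec n γ, D.sp_eq_node n γ, one_mem _, D.sec_mem n γ, ?_⟩
      intro x hx
      have := D.hk n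
      exact D.sec_of_three_le n γ (by omega)
  | one => exact ⟨1, fun _ => 1, by simp, one_mem _, fun _ => one_mem _, fun _ _ => rfl⟩
  | mul g g' _ _ ih ih' =>
    obtain ⟨σ, f, rfl, hσ, hf, hf'⟩ := ih
    obtain ⟨τ, e, rfl, hτ, he, he'⟩ := ih'
    refine ⟨σ * τ, _, node_mul _ _ _ _, mul_mem hσ hτ, fun x => mul_mem (hf _) (he _), ?_⟩
    intro x hx
    rw [he' x hx, A_fix hτ hx, hf' x hx, one_mul]
  | inv g _ ih =>
    obtain ⟨σ, f, rfl, hσ, hf, hf'⟩ := ih
    refine ⟨σ⁻¹, _, node_inv _ _, inv_mem hσ, fun x => inv_mem (hf _), ?_⟩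
    intro x hx
    rw [A_fix (inv_mem hσ) hx, hf' x hx, inv_one]

/-- The commutator trick. -/
theorem below_two_commutator (n : ℕ) (γ γ' : Γ) :
    below 2 (root ⁅D.ψ (n + 1) γ, D.ψ (n + 1) γ'⁆) ∈ D.G n := by
  obtain ⟨σ, hσ, h0, h1, h2⟩ := exists_shift (D.hk n)
  have hmem : ⁅D.sp n γ, root σ * D.sp n γ' * (root σ)⁻¹⁆ ∈ D.G n := by
    rw [commutatorElement_def]
    have h1 := D.sp_mem n γ
    have h2 := mul_mem (mul_mem (D.root_mem hσ) (D.sp_mem n γ')) (inv_mem (D.root_mem hσ))
    exact mul_mem (mul_mem (mul_mem h1 h2) (inv_mem h1)) (inv_mem h2)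
  have hs2 : σ⁻¹ 2 = 2 := by rw [Perm.inv_eq_iff_eq, h2]
  have hs0 : σ⁻¹ 3 = 0 := by rw [Perm.inv_eq_iff_eq, h0]
  have hs1 : σ⁻¹ 4 = 1 := by rw [Perm.inv_eq_iff_eq, h1]
  have hconj : root σ * D.sp n γ' * (root σ)⁻¹ = node 1 (fun x => D.sec n γ' (σ⁻¹ x)) := by
    rw [D.sp_eq_node, root_apply, node_inv, node_mul, node_mul]
    simp
  have heq : ⁅D.sp n γ, root σ * D.sp n γ' * (root σ)⁻¹⁆ =
      below 2 (root ⁅D.ψ (n + 1) γ, D.ψ (n + 1) γ'⁆) := by
    rw [hconj, commutatorElement_def, D.sp_eq_node, node_one_inv, node_one_inv, node_one_mul,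
      node_one_mul, node_one_mul, below_apply]
    congr 1
    · funext x
      by_cases h : x = 2
      · subst h
        rw [if_pos rfl, hs2, sec_two, sec_two, commutatorElement_def]
        simp only [map_mul, map_inv]
      · rw [if_neg h]
        by_cases hx : 3 ≤ x
        · rw [D.sec_of_three_le n γ hx]
          simp
        · have hx' : 3 ≤ σ⁻¹ x := by
            by_contra hcon
            have hc : σ⁻¹ x = 0 ∨ σ⁻¹ x = 1 ∨ σ⁻¹ x = 2 := by omega
            rcases hc with hc | hc | hc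
            · rw [Perm.inv_eq_iff_eq] at hc; omega
            · rw [Perm.inv_eq_iff_eq] at hc; omega
            · rw [Perm.inv_eq_iff_eq] at hc; omega
          rw [D.sec_of_three_le n γ' hx']
          simp
  rw [← heq]
  exact hmem

theorem below_move {n : ℕ} {x y : ℕ} (hx : x < D.k n) (hy : y < D.k n) {g : Perm (List ℕ)}
    (hg : below x g ∈ D.G n) : below y g ∈ D.G n := by
  obtain ⟨σ, hσ, rfl⟩ := A_transitive (by have := D.hk n; omega) hx hy
  rw [← root_conj_below]
  exact mul_mem (mul_mem (D.root_mem hσ) hg) (inv_mem (D.root_mem hσ))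

theorem below_root {n : ℕ} {x : ℕ} (hx : x < D.k n) {σ : Perm ℕ} (hσ : σ ∈ A (D.k (n + 1))) :
    below x (root σ) ∈ D.G n := by
  have hk := D.hk n
  refine D.below_move (x := 2) (by omega) hx ?_
  rw [← A_commutators (D.hk (n + 1))] at hσ
  have hle : ⁅A (D.k (n + 1)), A (D.k (n + 1))⁆ ≤ (D.G n).comap ((below 2).comp root) := by
    rw [Subgroup.commutator_le]
    intro a ha b hb
    rw [← D.hψ] at ha hb
    obtain ⟨γ, rfl⟩ := ha
    obtain ⟨γ', rfl⟩ := hb
    exact D.below_two_commutator n γ γ'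
  exact hle hσ

theorem below_zero_sp (n : ℕ) (γ : Γ) : below 0 (D.sp (n + 1) γ) ∈ D.G n := by
  have hk := D.hk n
  have h : below 0 (D.sp (n + 1) γ) =
      D.sp n γ * (below 1 (root (D.φ (n + 1) γ)))⁻¹ * (below 2 (root (D.ψ (n + 1) γ)))⁻¹ := by
    rw [D.sp_eq_node n, below_apply, below_apply, below_apply, node_one_inv, node_one_inv,
      node_one_mul, node_one_mul]
    congr 1
    · funext x
      by_cases h0 : x = 0
      · subst h0
        simp [sec_zero]
      · by_cases h1 : x = 1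
        · subst h1
          simp [sec_one]
        · by_cases h2 : x = 2
          · subst h2
            simp [sec_two]
          · rw [D.sec_of_three_le n γ (by omega)]
            simp [h0, h1, h2]
  rw [h]
  exact mul_mem (mul_mem (D.sp_mem _ _) (inv_mem (D.below_root (by omega) (D.hφ _ _))))
    (inv_mem (D.below_root (by omega) (D.hψ' _ _)))

/-- `G n` contains a copy of `G (n + 1)` below each child. -/
theorem below_mem {n : ℕ} {x : ℕ} (hx : x < D.k n) {g : Perm (List ℕ)} (hg : g ∈ D.G (n + 1)) :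
    below x g ∈ D.G n := by
  have hk := D.hk n
  have hle : D.G (n + 1) ≤ (D.G n).comap (below x) := by
    rw [G, Subgroup.closure_le]
    rintro _ (⟨σ, hσ, rfl⟩ | ⟨γ, rfl⟩)
    · exact D.below_root hx hσ
    · exact D.below_move (x := 0) (by omega) hx (D.below_zero_sp n γ)
  exact hle hg

theorem node_one_mem {n : ℕ} : ∀ (j : ℕ), j ≤ D.k n → ∀ (f : ℕ → Perm (List ℕ)), (∀ x, x < j → f x ∈ D.G (n + 1)) →
    (∀ x, j ≤ x → f x = 1) → node 1 f ∈ D.G n := by
  intro j
  induction j with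
  | zero =>
    intro _ f _ hf
    have : f = fun _ => 1 := by funext x; exact hf x (by omega)
    rw [this, node_one]
    exact one_mem _
  | succ j ih =>
    intro hj f hf hf'
    have heq : node 1 f = node 1 (fun x => if x < j then f x else 1) * below j (f j) := by
      rw [below_apply, node_one_mul]
      congr 1
      funext x
      rcases lt_trichotomy x j with h | h | h
      · rw [if_pos h, if_neg (by omega), mul_one]
      · subst h
        rw [if_neg (by omega), if_pos rfl, one_mul]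
      · rw [if_neg (by omega), if_neg (by omega), mul_one, hf' x (by omega)]
    rw [heq]
    refine mul_mem (ih (by omega) _ ?_ ?_) (D.below_mem (by omega) (hf j (by omega)))
    · intro x hx
      rw [if_pos hx]
      exact hf x (by omega)
    · intro x hx
      rw [if_neg (by omega)]

theorem node_mem {n : ℕ} {σ : Perm ℕ} (hσ : σ ∈ A (D.k n)) {f : ℕ → Perm (List ℕ)}
    (hf : ∀ x, x < D.k n → f x ∈ D.G (n + 1)) (hf' : ∀ x, D.k n ≤ x → f x = 1) : node σ f ∈ D.G n := by
  have : node σ f = root σ * node 1 f := by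
    rw [root_apply, node_mul]; simp
  rw [this]
  exact mul_mem (D.root_mem hσ) (D.node_one_mem (D.k n) le_rfl f hf hf')

end Data

end Pool.Agent.Lib.Branch74
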