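import Pool.Agent.Lib.Branch74.Words

/-!
# The concrete data

Homomorphisms from the free group on five letters to alternating groups, depending on a decidable
monotone relation `h`.
-/

namespace Pool.Agent.Lib.Branch74

open Equiv Equiv.Perm

section blocks

variable {Q H : Type}

/-- permutations preserving every block -/
def bl : (Q → H → Perm (Fin 4)) →* Perm (Q × H × Fin 4) where
  toFun F :=
    { toFun := fun z => (z.1, z.2.1, F z.1 z.2.1 z.2.2)
      invFun := fun z => (z.1, z.2.1, (F z.1 z.2.1).symm z.2.2)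
      left_inv := by intro z; simp
      right_inv := by intro z; simp }
  map_one' := by ext1 z; rfl
  map_mul' := by intro F F'; ext1 z; rfl

@[simp] theorem bl_apply (F : Q → H → Perm (Fin 4)) (q : Q) (p : H) (y : Fin 4) :
    bl F (q, p, y) = (q, p, F q p y) := rfl

theorem bl_injective : Function.Injective (bl : (Q → H → Perm (Fin 4)) →* Perm (Q × H × Fin 4)) := by
  intro F F' h
  funext q p
  ext1 y
  have := congrArg (fun e : Perm (Q × H × Fin 4) => (e (q, p, y)).2.2) h
  exact this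

/-- permutations of the blocks -/
def rel : Perm H →* Perm (Q × H × Fin 4) where
  toFun c :=
    { toFun := fun z => (z.1, c z.2.1, z.2.2)
      invFun := fun z => (z.1, c.symm z.2.1, z.2.2)
      left_inv := by intro z; simp
      right_inv := by intro z; simp }
  map_one' := by ext1 z; rfl
  map_mul' := by intro F F'; ext1 z; rfl

@[simp] theorem rel_apply (c : Perm H) (q : Q) (p : H) (y : Fin 4) :
    (rel c : Perm (Q × H × Fin 4)) (q, p, y) = (q, c p, y) := rfl

theorem rel_conj (c : Perm H) (F : Q → H → Perm (Fin 4)) :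
    rel c * bl F * (rel c)⁻¹ = bl (fun q p => F q (c⁻¹ p)) := by
  rw [mul_inv_eq_iff_eq_mul]
  ext1 z
  obtain ⟨q, p, y⟩ := z
  simp

theorem rel_conj' (c : Perm H) (F : Q → H → Perm (Fin 4)) :
    (rel c)⁻¹ * bl F * rel c = bl (fun q p => F q (c p)) := by
  have := rel_conj c⁻¹ F
  rw [map_inv, inv_inv, inv_inv] at this
  exact this

end blocks

/-- three cycle `0 → 1 → 2 → 0` -/
def α4 : Perm (Fin 4) := swap 0 1 * swap 1 2

/-- three cycle `1 → 2 → 3 → 1` -/
def β4 : Perm (Fin 4) := swap 1 2 * swap 2 3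

theorem α4_cube : α4 ^ 3 = 1 := by decide

theorem β4_cube : β4 ^ 3 = 1 := by decide

/-- the commutator -/
def ζ4 : Perm (Fin 4) := α4 * β4 * α4⁻¹ * β4⁻¹

theorem ζ4_ne : ζ4 ≠ 1 := by decide

/-- length of a zone -/
def mm (n : ℕ) : ℕ := 4 * n + 9

/-- degree -/
def kk (n : ℕ) : ℕ := 4 * (mm n * (n + 2)) + 1

instance (n : ℕ) : NeZero (mm n) := ⟨by unfold mm; omega⟩

instance (n : ℕ) : NeZero (kk n) := ⟨by unfold kk; omega⟩

theorem kk_ge (n : ℕ) : 16 * n + 37 ≤ kk n := by
  unfold kk mm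
  nlinarith

/-- the points of the marked blocks -/
abbrev YY (n : ℕ) : Type := Fin (n + 2) × ZMod (mm n) × Fin 4

/-- encoding of the points -/
def enc (n : ℕ) (z : YY n) : ℕ := 4 * (mm n * z.1.val + z.2.1.val) + z.2.2.val

theorem enc_lt (n : ℕ) (z : YY n) : enc n z < 4 * (mm n * (n + 2)) := by
  unfold enc
  have h1 := z.1.2
  have h2 := ZMod.val_lt z.2.1
  have h3 := z.2.2.2
  have h4 : mm n * z.1.val + mm n ≤ mm n * (n + 2) := by
    rw [← Nat.mul_succ]
    exact Nat.mul_le_mul_left _ h1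
  omega

theorem enc_div_four (n : ℕ) (z : YY n) : enc n z / 4 = mm n * z.1.val + z.2.1.val := by
  unfold enc
  have h3 := z.2.2.2
  omega

theorem enc_mod_four (n : ℕ) (z : YY n) : enc n z % 4 = z.2.2.val := by
  unfold enc
  have h3 := z.2.2.2
  omega

theorem enc_zone (n : ℕ) (z : YY n) : enc n z / 4 / mm n = z.1.val := by
  rw [enc_div_four]
  have h2 := ZMod.val_lt z.2.1
  rw [Nat.mul_add_div (by unfold mm; omega), Nat.div_eq_of_lt h2, add_zero]

theorem enc_pos (n : ℕ) (z : YY n) : enc n z / 4 % mm n = z.2.1.val := by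
  rw [enc_div_four]
  have h2 := ZMod.val_lt z.2.1
  rw [Nat.mul_add_mod, Nat.mod_eq_of_lt h2]

theorem enc_injective (n : ℕ) : Function.Injective (enc n) := by
  intro z z' h
  have h1 := enc_zone n z
  have h2 := enc_pos n z
  have h3 := enc_mod_four n z
  rw [h, enc_zone] at h1
  rw [h, enc_pos] at h2
  rw [h, enc_mod_four] at h3
  obtain ⟨q, p, y⟩ := z
  obtain ⟨q', p', y'⟩ := z'
  simp only at h1 h2 h3
  have e1 : q = q' := Fin.ext h1.symm
  have e2 : p = p' := (ZMod.val_injective _ h2).symm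
  have e3 : y = y' := Fin.ext h3.symm
  rw [e1, e2, e3]

/-- every small number is the code of a point -/
theorem exists_enc (n x : ℕ) (hx : x < 4 * (mm n * (n + 2))) : ∃ z, enc n z = x := by
  have hm : 0 < mm n := by unfold mm; omega
  have h1 : x / 4 < mm n * (n + 2) := by omega
  have h2 : x / 4 / mm n < n + 2 := by
    rw [Nat.div_lt_iff_lt_mul hm, mul_comm]
    exact h1
  refine ⟨(⟨x / 4 / mm n, h2⟩, ((x / 4 % mm n : ℕ) : ZMod (mm n)), ⟨x % 4, by omega⟩), ?_⟩
  unfold enc
  simp only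
  rw [ZMod.val_natCast, Nat.mod_mod, Nat.div_add_mod]
  omega

/-- the embedding -/
def encE (n : ℕ) : YY n ↪ ℕ := ⟨enc n, enc_injective n⟩

theorem encE_apply (n : ℕ) (z : YY n) : encE n z = enc n z := rfl

/-- the values of residues -/
def valE (k : ℕ) [NeZero k] : ZMod k ↪ ℕ := ⟨ZMod.val, ZMod.val_injective k⟩

theorem valE_apply (k : ℕ) [NeZero k] (z : ZMod k) : valE k z = z.val := rfl

section data

variable (h : ℕ → ℕ → Bool)

/-- visible zones -/
def vis (q n : ℕ) : Bool := decide (q = n + 1) || (decide (q ≤ n) && !(h q n))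

/-- first family of marks -/
def FA (n : ℕ) : Fin (n + 2) → ZMod (mm n) → Perm (Fin 4) :=
  fun _ p => if p = 0 then α4 else 1

/-- second family of marks -/
def FB (n : ℕ) : Fin (n + 2) → ZMod (mm n) → Perm (Fin 4) :=
  fun q p => if vis h q.val n = true ∧ p = (q.val : ZMod (mm n)) then β4 else 1

/-- images of the letters, first family -/
def Φl (n : ℕ) : Fin 5 → Perm (YY n) := ![bl (FA n), bl (FB h n), rel (rZ (mm n)), 1, 1]

/-- images of the letters, second family -/
def Ψl (n : ℕ) : Fin 5 → Perm (ZMod (kk n)) := ![1, 1, 1, cZ (kk n), rZ (kk n)]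

/-- first family -/
def Φ (n : ℕ) : FreeGroup (Fin 5) →* Perm (YY n) := FreeGroup.lift (Φl h n)

/-- second family -/
def Ψ (n : ℕ) : FreeGroup (Fin 5) →* Perm (ZMod (kk n)) := FreeGroup.lift (Ψl n)

/-- first family as permutations of the natural numbers -/
noncomputable def φc (n : ℕ) : FreeGroup (Fin 5) →* Perm ℕ := (viaEmbeddingHom (encE n)).comp (Φ h n)

/-- second family as permutations of the natural numbers -/
noncomputable def ψc (n : ℕ) : FreeGroup (Fin 5) →* Perm ℕ :=
  (viaEmbeddingHom (valE (kk n))).comp (Ψ n)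

theorem φc_apply (n : ℕ) (γ : FreeGroup (Fin 5)) (z : YY n) :
    φc h n γ (enc n z) = enc n (Φ h n γ z) := by
  have := viaEmbedding_apply (Φ h n γ) (encE n) z
  exact this

theorem φc_fix (n : ℕ) (γ : FreeGroup (Fin 5)) {x : ℕ} (hx : 4 * (mm n * (n + 2)) ≤ x) :
    φc h n γ x = x := by
  apply viaEmbedding_apply_of_notMem
  rintro ⟨z, hz⟩
  have h1 := enc_lt n z
  rw [encE_apply] at hz
  omega

theorem ψc_apply (n : ℕ) (γ : FreeGroup (Fin 5)) (z : ZMod (kk n)) :
    ψc n γ z.val = (Ψ n γ z).val := by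
  have := viaEmbedding_apply (Ψ n γ) (valE (kk n)) z
  exact this

theorem ψc_fix (n : ℕ) (γ : FreeGroup (Fin 5)) {x : ℕ} (hx : kk n ≤ x) :
    ψc n γ x = x := by
  apply viaEmbedding_apply_of_notMem
  rintro ⟨z, hz⟩
  have h1 := ZMod.val_lt z
  rw [valE_apply] at hz
  omega

theorem φc_eq_one_iff (n : ℕ) (γ : FreeGroup (Fin 5)) : φc h n γ = 1 ↔ Φ h n γ = 1 := by
  constructor
  · intro h1
    apply viaEmbeddingHom_injective (encE n)
    rw [map_one]
    exact h1
  · intro h1
    change viaEmbeddingHom (encE n) (Φ h n γ) = 1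
    rw [h1, map_one]

theorem φc_eq_iff (n : ℕ) (γ γ' : FreeGroup (Fin 5)) : φc h n γ = φc h n γ' ↔ Φ h n γ = Φ h n γ' := by
  constructor
  · intro h1
    apply viaEmbeddingHom_injective (encE n)
    exact h1
  · intro h1
    change viaEmbeddingHom (encE n) (Φ h n γ) = viaEmbeddingHom (encE n) (Φ h n γ')
    rw [h1]

theorem ψc_eq_one_iff (n : ℕ) (γ : FreeGroup (Fin 5)) : ψc n γ = 1 ↔ Ψ n γ = 1 := by
  constructor
  · intro h1
    apply viaEmbeddingHom_injective (valE (kk n))
    rw [map_one]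
    exact h1
  · intro h1
    change viaEmbeddingHom (valE (kk n)) (Ψ n γ) = 1
    rw [h1, map_one]

theorem mem_A_of_odd_enc {n : ℕ} {σ : Perm (YY n)} {j : ℕ} (hj : σ ^ (2 * j + 1) = 1) :
    viaEmbeddingHom (encE n) σ ∈ A (kk n) := by
  apply mem_A_of_odd (j := j)
  · intro x hx
    apply viaEmbedding_apply_of_notMem
    rintro ⟨z, hz⟩
    have h1 := enc_lt n z
    rw [encE_apply] at hz
    unfold kk at hx
    omega
  · rw [← map_pow, hj, map_one]

theorem mem_A_of_odd_val {n : ℕ} {σ : Perm (ZMod (kk n))} {j : ℕ} (hj : σ ^ (2 * j + 1) = 1) :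
    viaEmbeddingHom (valE (kk n)) σ ∈ A (kk n) := by
  apply mem_A_of_odd (j := j)
  · intro x hx
    apply viaEmbedding_apply_of_notMem
    rintro ⟨z, hz⟩
    have h1 := ZMod.val_lt z
    rw [valE_apply] at hz
    omega
  · rw [← map_pow, hj, map_one]

theorem rZ_pow_self (k : ℕ) : rZ k ^ k = 1 := by
  ext1 x
  rw [rZ_pow]
  simp

theorem cZ_cube {k : ℕ} (hk : 5 ≤ k) [NeZero k] : cZ k ^ 3 = 1 := by
  have := (cZ_isThreeCycle hk).orderOf
  rw [← this]
  exact pow_orderOf_eq_one _

theorem bl_pow_three (n : ℕ) (F : Fin (n + 2) → ZMod (mm n) → Perm (Fin 4)) (hF : ∀ q p, F q p ^ 3 = 1) :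
    bl F ^ 3 = 1 := by
  rw [← map_pow]
  have : F ^ 3 = 1 := by
    funext q p
    exact hF q p
  rw [this, map_one]

theorem φc_mem (n : ℕ) (γ : FreeGroup (Fin 5)) : φc h n γ ∈ A (kk n) := by
  have hle : (Φ h n).range ≤ (A (kk n)).comap (viaEmbeddingHom (encE n)) := by
    rw [Φ, FreeGroup.range_lift_eq_closure, Subgroup.closure_le]
    rintro _ ⟨j, rfl⟩
    change viaEmbeddingHom (encE n) (Φl h n j) ∈ A (kk n)
    fin_cases j
    · refine mem_A_of_odd_enc (j := 1) ?_
      apply bl_pow_three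
      intro q p
      rw [FA]
      split_ifs
      · exact α4_cube
      · exact one_pow _
    · refine mem_A_of_odd_enc (j := 1) ?_
      apply bl_pow_three
      intro q p
      rw [FB]
      split_ifs
      · exact β4_cube
      · exact one_pow _
    · refine mem_A_of_odd_enc (j := 2 * n + 4) ?_
      change rel (rZ (mm n)) ^ _ = 1
      rw [← map_pow, show 2 * (2 * n + 4) + 1 = mm n by unfold mm; ring, rZ_pow_self, map_one]
    · refine mem_A_of_odd_enc (j := 0) ?_
      rfl
    · refine mem_A_of_odd_enc (j := 0) ?_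
      rfl
  exact hle ⟨γ, rfl⟩

theorem map_alt_eq (k : ℕ) [NeZero k] :
    (alternatingGroup (ZMod k)).map (viaEmbeddingHom (valE k)) = A k := by
  rcases k with _ | k
  · exact absurd rfl (NeZero.ne 0)
  · rfl

theorem ψc_range (n : ℕ) : (ψc n).range = A (kk n) := by
  have hk := kk_ge n
  rw [ψc, MonoidHom.range_comp]
  apply le_antisymm
  · rw [Subgroup.map_le_iff_le_comap, Ψ, FreeGroup.range_lift_eq_closure, Subgroup.closure_le]
    rintro _ ⟨j, rfl⟩
    change viaEmbeddingHom (valE (kk n)) (Ψl n j) ∈ A (kk n)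
    fin_cases j
    · exact mem_A_of_odd_val (j := 0) rfl
    · exact mem_A_of_odd_val (j := 0) rfl
    · exact mem_A_of_odd_val (j := 0) rfl
    · refine mem_A_of_odd_val (j := 1) ?_
      exact cZ_cube (by omega)
    · refine mem_A_of_odd_val (j := 2 * (mm n * (n + 2))) ?_
      have : 2 * (2 * (mm n * (n + 2))) + 1 = kk n := by unfold kk; ring
      rw [this]
      exact rZ_pow_self _
  · rw [← map_alt_eq]
    apply Subgroup.map_mono
    refine (alt_le_closure (kk n) (by omega)).trans ?_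
    rw [Subgroup.closure_le]
    rintro _ (rfl | rfl)
    · exact ⟨FreeGroup.of 3, by rw [Ψ, FreeGroup.lift_apply_of]; rfl⟩
    · exact ⟨FreeGroup.of 4, by rw [Ψ, FreeGroup.lift_apply_of]; rfl⟩

/-- The concrete data. -/
noncomputable def DD : Data (FreeGroup (Fin 5)) where
  k := kk
  φ := φc h
  ψ := ψc
  hk n := by have := kk_ge n; omega
  hφ := φc_mem h
  hψ := ψc_range

end data

end Pool.Agent.Lib.Branch74
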