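import Pool.Agent.Lib.Branch74.Conj

/-!
# The eventual behaviour of a word is detected at linear depth
-/

namespace Pool.Agent.Lib.Branch74

open Equiv Equiv.Perm

theorem mk_true (j : Fin 5) : (FreeGroup.mk [(j, true)] : FreeGroup (Fin 5)) = FreeGroup.of j := rfl

theorem mk_false (j : Fin 5) :
    (FreeGroup.mk [(j, false)] : FreeGroup (Fin 5)) = (FreeGroup.of j)⁻¹ := rfl

/-- one letter acts by a local rule, first family -/
theorem Φ_letter (c : Fin 5 × Bool) : ∃ (d : ℤ) (e : Bool → Bool → Perm (Fin 4)), |d| ≤ 1 ∧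
    ∀ (h : ℕ → ℕ → Bool) (n : ℕ) (q : Fin (n + 2)) (p : ZMod (mm n)) (y : Fin 4),
      Φ h n (FreeGroup.mk [c]) (q, p, y) =
        (q, p + (d : ZMod (mm n)), e (decide (p = 0))
          (decide (vis h q.val n = true ∧ p = (q.val : ZMod (mm n)))) y) := by
  obtain ⟨j, b⟩ := c
  have hof : ∀ (h : ℕ → ℕ → Bool) (n : ℕ) (j : Fin 5), Φ h n (FreeGroup.of j) = Φl h n j := by
    intro h n j
    rw [Φ, FreeGroup.lift_apply_of]
  rcases b with _ | _
  · -- inverse letters
    rw [mk_false]
    fin_cases j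
    · refine ⟨0, fun b _ => if b = true then α4⁻¹ else 1, by simp, ?_⟩
      intro h n q p y
      rw [map_inv, hof]
      change (bl (FA n))⁻¹ (q, p, y) = _
      rw [← map_inv, bl_apply]
      simp only [Pi.inv_apply, FA, decide_eq_true_eq, Int.cast_zero, add_zero]
      split_ifs <;> simp
    · refine ⟨0, fun _ b => if b = true then β4⁻¹ else 1, by simp, ?_⟩
      intro h n q p y
      rw [map_inv, hof]
      change (bl (FB h n))⁻¹ (q, p, y) = _
      rw [← map_inv, bl_apply]
      simp only [Pi.inv_apply, FB, decide_eq_true_eq, Int.cast_zero, add_zero]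
      split_ifs <;> simp
    · refine ⟨-1, fun _ _ => 1, by simp, ?_⟩
      intro h n q p y
      rw [map_inv, hof]
      change (rel (rZ (mm n)))⁻¹ (q, p, y) = _
      rw [← map_inv, rel_apply, rZ_inv_apply]
      simp [sub_eq_add_neg]
    · refine ⟨0, fun _ _ => 1, by simp, ?_⟩
      intro h n q p y
      rw [map_inv, hof]
      change (1 : Perm (YY n))⁻¹ (q, p, y) = _
      simp
    · refine ⟨0, fun _ _ => 1, by simp, ?_⟩
      intro h n q p y
      rw [map_inv, hof]
      change (1 : Perm (YY n))⁻¹ (q, p, y) = _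
      simp
  · rw [mk_true]
    fin_cases j
    · refine ⟨0, fun b _ => if b = true then α4 else 1, by simp, ?_⟩
      intro h n q p y
      rw [hof]
      change (bl (FA n)) (q, p, y) = _
      rw [bl_apply]
      simp only [FA, decide_eq_true_eq, Int.cast_zero, add_zero]
    · refine ⟨0, fun _ b => if b = true then β4 else 1, by simp, ?_⟩
      intro h n q p y
      rw [hof]
      change (bl (FB h n)) (q, p, y) = _
      rw [bl_apply]
      simp only [FB, decide_eq_true_eq, Int.cast_zero, add_zero]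
    · refine ⟨1, fun _ _ => 1, by simp, ?_⟩
      intro h n q p y
      rw [hof]
      change (rel (rZ (mm n))) (q, p, y) = _
      rw [rel_apply, rZ_apply]
      simp
    · refine ⟨0, fun _ _ => 1, by simp, ?_⟩
      intro h n q p y
      rw [hof]
      change (1 : Perm (YY n)) (q, p, y) = _
      simp
    · refine ⟨0, fun _ _ => 1, by simp, ?_⟩
      intro h n q p y
      rw [hof]
      change (1 : Perm (YY n)) (q, p, y) = _
      simp

/-- The marks seen within distance `s` agree. -/
def Agree (h : ℕ → ℕ → Bool) (s : ℤ) (n n' : ℕ) (q : Fin (n + 2)) (q' : Fin (n' + 2))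
    (p : ZMod (mm n)) (p' : ZMod (mm n')) : Prop :=
  ∀ δ : ℤ, |δ| ≤ s → ((p + δ = 0 ↔ p' + δ = 0) ∧
    ((vis h q.val n = true ∧ p + δ = (q.val : ZMod (mm n))) ↔
      (vis h q'.val n' = true ∧ p' + δ = (q'.val : ZMod (mm n')))))

theorem Φ_local (h : ℕ → ℕ → Bool) {s : ℤ} {n n' : ℕ} {q : Fin (n + 2)} {q' : Fin (n' + 2)}
    {p : ZMod (mm n)} {p' : ZMod (mm n')} (hag : Agree h s n n' q q' p p')
    (w : List (Fin 5 × Bool)) : (w.length : ℤ) ≤ s → ∀ y, ∃ (δ : ℤ) (y' : Fin 4), |δ| ≤ w.length ∧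
      Φ h n (FreeGroup.mk w) (q, p, y) = (q, p + δ, y') ∧
      Φ h n' (FreeGroup.mk w) (q', p', y) = (q', p' + δ, y') := by
  induction w with
  | nil =>
    intro _ y
    refine ⟨0, y, by simp, ?_, ?_⟩
    · have : (FreeGroup.mk [] : FreeGroup (Fin 5)) = 1 := rfl
      rw [this, map_one]; simp
    · have : (FreeGroup.mk [] : FreeGroup (Fin 5)) = 1 := rfl
      rw [this, map_one]; simp
  | cons c w ih =>
    intro hs y
    rw [List.length_cons] at hs
    push_cast at hs
    obtain ⟨δ, y', hδ, h1, h2⟩ := ih (by omega) y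
    obtain ⟨d, e, hd, he⟩ := Φ_letter c
    obtain ⟨ha, hb⟩ := hag δ (by omega)
    refine ⟨δ + d, e (decide (p + δ = 0))
      (decide (vis h q.val n = true ∧ p + δ = (q.val : ZMod (mm n)))) y', ?_, ?_, ?_⟩
    · rw [List.length_cons]
      push_cast
      exact (abs_add_le δ d).trans (by omega)
    · rw [Data.mk_cons, map_mul, Perm.mul_apply, h1, he]
      push_cast
      rw [add_assoc]
    · rw [Data.mk_cons, map_mul, Perm.mul_apply, h2, he]
      push_cast
      rw [add_assoc]
      congr 4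
      · simp only [ha]
      · simp only [hb]

/-- every local picture at a higher level is seen at level `n` already -/
theorem exists_agree (h : ℕ → ℕ → Bool) (hmono : ∀ i n n', n ≤ n' → h i n = true → h i n' = true)
    {s n n' : ℕ} (hs : 2 * s ≤ n) (hnn : n ≤ n') (q' : Fin (n' + 2)) (p' : ZMod (mm n')) :
    ∃ q p, Agree h s n n' q q' p p' := by
  have hq' := q'.2
  -- comparisons of integers with residues
  have cmp : ∀ (m : ℕ) (a b : ℤ), |a - b| < (mm m : ℤ) → ((a : ZMod (mm m)) = (b : ZMod (mm m)) ↔ a = b) :=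
    fun m a b hab => intCast_eq_iff hab
  have hmn : (mm n : ℤ) = 4 * n + 9 := by unfold mm; push_cast; ring
  have hmn' : (mm n' : ℤ) = 4 * n' + 9 := by unfold mm; push_cast; ring
  by_cases hA : ∃ δa : ℤ, |δa| ≤ s ∧ p' + δa = 0
  · obtain ⟨δa, hδa, hpa⟩ := hA
    have hp' : p' = ((-δa : ℤ) : ZMod (mm n')) := by
      push_cast
      exact eq_neg_of_add_eq_zero_left hpa
    rw [abs_le] at hδa
    have hAiff : ∀ (m : ℕ), n ≤ m → ∀ δ : ℤ, |δ| ≤ s →
        ((((-δa : ℤ) : ZMod (mm m)) + δ = 0) ↔ δ = δa) := by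
      intro m hm δ hδ
      have hmm : (mm m : ℤ) = 4 * m + 9 := by unfold mm; push_cast; ring
      rw [abs_le] at hδ
      have h1 := cmp m (-δa + δ) 0 (by rw [abs_lt]; constructor <;> omega)
      push_cast at h1 ⊢
      rw [h1]
      omega
    by_cases hB : ∃ δb : ℤ, |δb| ≤ s ∧ vis h q'.val n' = true ∧ p' + δb = (q'.val : ZMod (mm n'))
    · obtain ⟨δb, hδb, hvis, hpb⟩ := hB
      rw [abs_le] at hδb
      have hq : (q'.val : ℤ) = δb - δa := by
        have h1 := cmp n' (-δa + δb) (q'.val : ℤ) (by rw [abs_lt]; constructor <;> omega)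
        rw [hp'] at hpb
        push_cast at h1 hpb
        have h2 := h1.mp hpb
        omega
      have hvis' : vis h q'.val n = true := by
        unfold vis at hvis ⊢
        rw [Bool.or_eq_true, Bool.and_eq_true, decide_eq_true_eq, decide_eq_true_eq] at hvis ⊢
        rcases hvis with hv | ⟨hv1, hv2⟩
        · omega
        · right
          refine ⟨by omega, ?_⟩
          by_contra hcon
          simp only [Bool.not_eq_true, Bool.not_eq_false'] at hcon
          have := hmono q'.val n n' hnn hcon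
          rw [this] at hv2
          simp at hv2
      refine ⟨⟨q'.val, by omega⟩, ((-δa : ℤ) : ZMod (mm n)), ?_⟩
      intro δ hδ
      rw [hp', hAiff n le_rfl δ hδ, hAiff n' hnn δ hδ]
      refine ⟨Iff.rfl, ?_⟩
      simp only [hvis, hvis', true_and]
      rw [abs_le] at hδ
      have h1 := cmp n (-δa + δ) (q'.val : ℤ) (by rw [abs_lt]; constructor <;> omega)
      have h2 := cmp n' (-δa + δ) (q'.val : ℤ) (by rw [abs_lt]; constructor <;> omega)
      push_cast at h1 h2 ⊢
      rw [h1, h2]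
    · refine ⟨⟨n + 1, by omega⟩, ((-δa : ℤ) : ZMod (mm n)), ?_⟩
      intro δ hδ
      rw [hp', hAiff n le_rfl δ hδ, hAiff n' hnn δ hδ]
      refine ⟨Iff.rfl, ?_⟩
      constructor
      · rintro ⟨-, h1⟩
        exfalso
        rw [abs_le] at hδ
        have h2 := cmp n (-δa + δ) ((n + 1 : ℕ) : ℤ) (by rw [abs_lt]; constructor <;> push_cast <;> omega)
        push_cast at h1 h2
        have h3 := h2.mp h1
        omega
      · rintro ⟨h1, h2⟩
        exact absurd ⟨δ, hδ, h1, by rw [hp']; exact h2⟩ hB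
  · by_cases hB : ∃ δb : ℤ, |δb| ≤ s ∧ vis h q'.val n' = true ∧ p' + δb = (q'.val : ZMod (mm n'))
    · obtain ⟨δb, hδb, hvis, hpb⟩ := hB
      have hδb' := hδb
      rw [abs_le] at hδb
      have hvis' : vis h (n + 1) n = true := by unfold vis; simp
      refine ⟨⟨n + 1, by omega⟩, (((n + 1 : ℕ) - δb : ℤ) : ZMod (mm n)), ?_⟩
      intro δ hδ
      have hδ' := hδ
      rw [abs_le] at hδ
      constructor
      · constructor
        · intro h1
          exfalso
          have h2 := cmp n (((n + 1 : ℕ) : ℤ) - δb + δ) 0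
            (by rw [abs_lt]; constructor <;> push_cast <;> omega)
          push_cast at h1 h2
          have h3 := h2.mp h1
          omega
        · intro h1
          exact absurd ⟨δ, hδ', h1⟩ hA
      · simp only [hvis, hvis', true_and]
        have h2 := cmp n (((n + 1 : ℕ) : ℤ) - δb + δ) ((n + 1 : ℕ) : ℤ)
            (by rw [abs_lt]; constructor <;> omega)
        have h3 := cmp n' δ δb (by rw [abs_lt]; constructor <;> omega)
        rw [← hpb, add_right_inj, h3]
        push_cast at h2 ⊢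
        rw [h2]
        omega
    · refine ⟨⟨n + 1, by omega⟩, ((2 * n + 4 : ℤ) : ZMod (mm n)), ?_⟩
      intro δ hδ
      have hδ' := hδ
      rw [abs_le] at hδ
      constructor
      · constructor
        · intro h1
          exfalso
          have h2 := cmp n (2 * n + 4 + δ) 0
            (by rw [abs_lt]; constructor <;> omega)
          push_cast at h1 h2
          have h3 := h2.mp h1
          omega
        · intro h1
          exact absurd ⟨δ, hδ', h1⟩ hA
      · constructor
        · rintro ⟨-, h1⟩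
          exfalso
          have h2 := cmp n (2 * n + 4 + δ) ((n + 1 : ℕ) : ℤ)
            (by rw [abs_lt]; constructor <;> push_cast <;> omega)
          push_cast at h1 h2
          have h3 := h2.mp h1
          omega
        · rintro ⟨h1, h2⟩
          exact absurd ⟨δ, hδ', h1, h2⟩ hB

theorem Φ_transfer (h : ℕ → ℕ → Bool) (hmono : ∀ i n n', n ≤ n' → h i n = true → h i n' = true)
    {n n' : ℕ} {w : List (Fin 5 × Bool)} (hs : 2 * w.length ≤ n) (hnn : n ≤ n')
    (hw : Φ h n (FreeGroup.mk w) = 1) : Φ h n' (FreeGroup.mk w) = 1 := by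
  ext1 z
  obtain ⟨q', p', y⟩ := z
  obtain ⟨q, p, hag⟩ := exists_agree h hmono hs hnn q' p'
  obtain ⟨δ, y', hδ, h1, h2⟩ := Φ_local h hag w le_rfl y
  rw [hw] at h1
  have h3 : p = p + δ ∧ y = y' := by
    have := (Prod.ext_iff.mp h1).2
    exact ⟨(Prod.ext_iff.mp this).1, (Prod.ext_iff.mp this).2⟩
  have h4 : (δ : ZMod (mm n)) = 0 := by
    have := h3.1
    rwa [left_eq_add] at this
  have hmn : (mm n : ℤ) = 4 * n + 9 := by unfold mm; push_cast; ring
  have h5 : δ = 0 := by
    have h6 := intCast_eq_iff (k := mm n) (a := δ) (b := 0) (by rw [sub_zero]; omega)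
    rw [Int.cast_zero] at h6
    exact h6.mp h4
  rw [h2, h5, ← h3.2]
  simp

/-! ### Second family -/

/-- one letter acts by a local rule, second family -/
theorem Ψ_letter (c : Fin 5 × Bool) : ∃ (e : Bool → Bool → Bool → ℤ), (∀ b b' b'', |e b b' b''| ≤ 2) ∧
    ∀ (n : ℕ) (p : ZMod (kk n)), Ψ n (FreeGroup.mk [c]) p =
        p + (e (decide (p = 0)) (decide (p = 1)) (decide (p = 2)) : ZMod (kk n)) := by
  obtain ⟨j, b⟩ := c
  have hof : ∀ (n : ℕ) (j : Fin 5), Ψ n (FreeGroup.of j) = Ψl n j := by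
    intro n j
    rw [Ψ, FreeGroup.lift_apply_of]
  have hk : ∀ n, 5 ≤ kk n := fun n => by have := kk_ge n; omega
  have hn : ∀ (n : ℕ) (a b : ℕ), a < 5 → b < 5 → a ≠ b → (a : ZMod (kk n)) ≠ (b : ZMod (kk n)) :=
    fun n a b ha hb hab => natCast_ne (by have := hk n; omega) (by have := hk n; omega) hab
  have h01 : ∀ n, (0 : ZMod (kk n)) ≠ 1 := fun n => by
    simpa using hn n 0 1 (by omega) (by omega) (by omega)
  have h02 : ∀ n, (0 : ZMod (kk n)) ≠ 2 := fun n => by
    simpa using hn n 0 2 (by omega) (by omega) (by omega)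
  have h12 : ∀ n, (1 : ZMod (kk n)) ≠ 2 := fun n => by
    simpa using hn n 1 2 (by omega) (by omega) (by omega)
  rcases b with _ | _
  · -- inverse letters
    rw [mk_false]
    fin_cases j
    · refine ⟨fun _ _ _ => 0, by simp, ?_⟩
      intro n p
      rw [map_inv, hof]
      change (1 : Perm (ZMod (kk n)))⁻¹ p = _
      simp
    · refine ⟨fun _ _ _ => 0, by simp, ?_⟩
      intro n p
      rw [map_inv, hof]
      change (1 : Perm (ZMod (kk n)))⁻¹ p = _
      simp
    · refine ⟨fun _ _ _ => 0, by simp, ?_⟩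
      intro n p
      rw [map_inv, hof]
      change (1 : Perm (ZMod (kk n)))⁻¹ p = _
      simp
    · refine ⟨fun b0 b1 b2 => if b0 = true then 2 else if b1 = true then -1 else
        if b2 = true then -1 else 0, ?_, ?_⟩
      · intro b0 b1 b2
        cases b0 <;> cases b1 <;> cases b2 <;> simp
      · intro n p
        rw [map_inv, hof]
        change (cZ (kk n))⁻¹ p = _
        rw [Perm.inv_eq_iff_eq]
        simp only [decide_eq_true_eq]
        split_ifs with h0 h1 h2
        · subst h0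
          simp [cZ_two]
        · subst h1
          simp [cZ_zero (hk n)]
        · subst h2
          norm_num
          exact (cZ_one (hk n)).symm
        · rw [Int.cast_zero, add_zero, cZ_of_ne h0 h1 h2]
    · refine ⟨fun _ _ _ => -1, by simp, ?_⟩
      intro n p
      rw [map_inv, hof]
      change (rZ (kk n))⁻¹ p = _
      rw [rZ_inv_apply]
      simp [sub_eq_add_neg]
  · rw [mk_true]
    fin_cases j
    · refine ⟨fun _ _ _ => 0, by simp, ?_⟩
      intro n p
      rw [hof]
      change (1 : Perm (ZMod (kk n))) p = _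
      simp
    · refine ⟨fun _ _ _ => 0, by simp, ?_⟩
      intro n p
      rw [hof]
      change (1 : Perm (ZMod (kk n))) p = _
      simp
    · refine ⟨fun _ _ _ => 0, by simp, ?_⟩
      intro n p
      rw [hof]
      change (1 : Perm (ZMod (kk n))) p = _
      simp
    · refine ⟨fun b0 b1 b2 => if b0 = true then 1 else if b1 = true then 1 else
        if b2 = true then -2 else 0, ?_, ?_⟩
      · intro b0 b1 b2
        cases b0 <;> cases b1 <;> cases b2 <;> simp
      · intro n p
        rw [hof]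
        change cZ (kk n) p = _
        simp only [decide_eq_true_eq]
        split_ifs with h0 h1 h2
        · subst h0
          simp [cZ_zero (hk n)]
        · subst h1
          rw [cZ_one (hk n)]
          norm_num
        · subst h2
          rw [cZ_two]
          simp
        · rw [Int.cast_zero, add_zero, cZ_of_ne h0 h1 h2]
    · refine ⟨fun _ _ _ => 1, by simp, ?_⟩
      intro n p
      rw [hof]
      change rZ (kk n) p = _
      rw [rZ_apply]
      simp

/-- The marks seen within distance `s` agree. -/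
def Agree2 (s : ℤ) (n n' : ℕ) (p : ZMod (kk n)) (p' : ZMod (kk n')) : Prop :=
  ∀ δ : ℤ, |δ| ≤ s → ((p + δ = 0 ↔ p' + δ = 0) ∧ (p + δ = 1 ↔ p' + δ = 1) ∧ (p + δ = 2 ↔ p' + δ = 2))

theorem Ψ_local {s : ℤ} {n n' : ℕ} {p : ZMod (kk n)} {p' : ZMod (kk n')}
    (hag : Agree2 s n n' p p') (w : List (Fin 5 × Bool)) : (2 * w.length : ℤ) ≤ s →
    ∃ (δ : ℤ), |δ| ≤ 2 * w.length ∧ Ψ n (FreeGroup.mk w) p = p + δ ∧
      Ψ n' (FreeGroup.mk w) p' = p' + δ := by
  induction w with
  | nil =>
    intro _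
    refine ⟨0, by simp, ?_, ?_⟩
    · have : (FreeGroup.mk [] : FreeGroup (Fin 5)) = 1 := rfl
      rw [this, map_one]; simp
    · have : (FreeGroup.mk [] : FreeGroup (Fin 5)) = 1 := rfl
      rw [this, map_one]; simp
  | cons c w ih =>
    intro hs
    rw [List.length_cons] at hs
    push_cast at hs
    obtain ⟨δ, hδ, h1, h2⟩ := ih (by omega)
    obtain ⟨e, hd, he⟩ := Ψ_letter c
    obtain ⟨ha, hb, hc⟩ := hag δ (by omega)
    refine ⟨δ + e (decide (p + δ = 0)) (decide (p + δ = 1)) (decide (p + δ = 2)), ?_, ?_, ?_⟩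
    · rw [List.length_cons]
      push_cast
      have := hd (decide (p + δ = 0)) (decide (p + δ = 1)) (decide (p + δ = 2))
      exact (abs_add_le δ _).trans (by omega)
    · rw [Data.mk_cons, map_mul, Perm.mul_apply, h1, he]
      push_cast
      rw [add_assoc]
    · rw [Data.mk_cons, map_mul, Perm.mul_apply, h2, he]
      push_cast
      rw [add_assoc]
      simp only [ha, hb, hc]

theorem exists_agree2 {s n n' : ℕ} (hs : 2 * s ≤ n) (hnn : n ≤ n') (p' : ZMod (kk n')) :
    ∃ p, Agree2 (2 * s) n n' p p' := by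
  have cmp : ∀ (m : ℕ) (a b : ℤ), |a - b| < (kk m : ℤ) → ((a : ZMod (kk m)) = (b : ZMod (kk m)) ↔ a = b) :=
    fun m a b hab => intCast_eq_iff hab
  have hkn : 16 * (n : ℤ) + 37 ≤ kk n := by exact_mod_cast kk_ge n
  have hkn' : 16 * (n' : ℤ) + 37 ≤ kk n' := by exact_mod_cast kk_ge n'
  by_cases hA : ∃ (δ : ℤ) (j : ℤ), |δ| ≤ 2 * s ∧ 0 ≤ j ∧ j ≤ 2 ∧ p' + δ = j
  · obtain ⟨δ0, j, hδ0, hj0, hj2, hp⟩ := hA
    have hp' : p' = ((j - δ0 : ℤ) : ZMod (kk n')) := by
      push_cast
      exact eq_sub_of_add_eq hp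
    refine ⟨((j - δ0 : ℤ) : ZMod (kk n)), ?_⟩
    rw [abs_le] at hδ0
    intro δ hδ
    rw [abs_le] at hδ
    rw [hp']
    have hgen : ∀ i : ℤ, 0 ≤ i → i ≤ 2 → ((((j - δ0 : ℤ) : ZMod (kk n)) + δ = (i : ZMod (kk n))) ↔
        (((j - δ0 : ℤ) : ZMod (kk n')) + δ = (i : ZMod (kk n')))) := by
      intro i hi0 hi2
      have h1 := cmp n (j - δ0 + δ) i (by rw [abs_lt]; constructor <;> omega)
      have h2 := cmp n' (j - δ0 + δ) i (by rw [abs_lt]; constructor <;> omega)
      push_cast at h1 h2 ⊢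
      rw [h1, h2]
    have g0 := hgen 0 (by omega) (by omega)
    have g1 := hgen 1 (by omega) (by omega)
    have g2 := hgen 2 (by omega) (by omega)
    push_cast at g0 g1 g2 ⊢
    exact ⟨g0, g1, g2⟩
  · refine ⟨((2 * s + 3 : ℤ) : ZMod (kk n)), ?_⟩
    intro δ hδ
    have hδ' := hδ
    rw [abs_le] at hδ
    have hgen : ∀ i : ℤ, 0 ≤ i → i ≤ 2 → ((((2 * s + 3 : ℤ) : ZMod (kk n)) + δ = (i : ZMod (kk n))) ↔
        (p' + δ = (i : ZMod (kk n')))) := by
      intro i hi0 hi2
      constructor
      · intro h1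
        exfalso
        have h2 := cmp n (2 * s + 3 + δ) i (by rw [abs_lt]; constructor <;> omega)
        push_cast at h1 h2
        have := h2.mp h1
        omega
      · intro h1
        exact absurd ⟨δ, i, hδ', hi0, hi2, h1⟩ hA
    have g0 := hgen 0 (by omega) (by omega)
    have g1 := hgen 1 (by omega) (by omega)
    have g2 := hgen 2 (by omega) (by omega)
    push_cast at g0 g1 g2 ⊢
    exact ⟨g0, g1, g2⟩

theorem Ψ_transfer {n n' : ℕ} {w : List (Fin 5 × Bool)} (hs : 2 * w.length ≤ n) (hnn : n ≤ n')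
    (hw : Ψ n (FreeGroup.mk w) = 1) : Ψ n' (FreeGroup.mk w) = 1 := by
  ext1 p'
  obtain ⟨p, hag⟩ := exists_agree2 hs hnn p'
  obtain ⟨δ, hδ, h1, h2⟩ := Ψ_local hag w le_rfl
  rw [hw] at h1
  have h4 : (δ : ZMod (kk n)) = 0 := by
    have h3 : p = p + δ := h1
    rwa [left_eq_add] at h3
  have hkn : 16 * (n : ℤ) + 37 ≤ kk n := by exact_mod_cast kk_ge n
  have h5 : δ = 0 := by
    have h6 := intCast_eq_iff (k := kk n) (a := δ) (b := 0) (by rw [sub_zero]; omega)
    rw [Int.cast_zero] at h6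
    exact h6.mp h4
  rw [h2, h5]
  simp

theorem DD_transfer (h : ℕ → ℕ → Bool) (hmono : ∀ i n n', n ≤ n' → h i n = true → h i n' = true) :
    (DD h).Transfer 2 := by
  intro w n hn h1 h2 m hm
  constructor
  · have h3 : Φ h n (FreeGroup.mk w) = 1 := (φc_eq_one_iff h n _).mp h1
    exact (φc_eq_one_iff h m _).mpr (Φ_transfer h hmono (by omega) hm h3)
  · have h3 : Ψ n (FreeGroup.mk w) = 1 := (ψc_eq_one_iff n _).mp h2
    exact (ψc_eq_one_iff m _).mpr (Ψ_transfer (by omega) hm h3)

/-- visible forever: not conjugate -/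
theorem DD_not_conj (h : ℕ → ℕ → Bool) {i : ℕ} (hi : ∀ n, h i n = false) {g : Perm (List ℕ)}
    (hg : g ∈ (DD h).G 0) : g * (DD h).sp 0 (v1 i) * g⁻¹ ≠ (DD h).sp 0 (v2 i) := by
  obtain ⟨s, hs⟩ := (DD h).exists_S hg
  refine (DD h).not_conj_of ?_ ?_ s hs
  · intro γ N
    exact ⟨max (N + 1) i, by omega, φ_not_conj h (le_max_right _ _) (hi _) γ⟩
  · intro N
    exact ⟨max (N + 1) i, by omega, φ_nontrivial h (le_max_right _ _) (hi _)⟩

/-- eventually invisible: conjugate -/
theorem DD_conj (h : ℕ → ℕ → Bool) (hmono : ∀ i n n', n ≤ n' → h i n = true → h i n' = true)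
    {i n0 : ℕ} (hi : h i n0 = true) :
    ∃ g ∈ (DD h).G 0, g * (DD h).sp 0 (v1 i) * g⁻¹ = (DD h).sp 0 (v2 i) := by
  refine (DD h).conj_of (N := max i n0) (φ_conj h · i) ?_ ?_ (max i n0) 0 (by omega)
  · intro n
    exact ⟨(ψc_eq_one_iff n _).mpr (Ψ_v1 n i), (ψc_eq_one_iff n _).mpr (Ψ_v2 n i)⟩
  · intro n hn
    exact φ_trivial h (by omega) (hmono i n0 n (by omega) hi)

end Pool.Agent.Lib.Branch74
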