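import Pool.Agent.Lib.Branch74.Group

/-!
# The action on valid words
-/

namespace Pool.Agent.Lib.Branch74

open Equiv Equiv.Perm

theorem node_one_mem_of_below {H : Subgroup (Perm (List ℕ))} {f : ℕ → Perm (List ℕ)} {K : ℕ}
    (hf : ∀ x, x < K → below x (f x) ∈ H) (hf' : ∀ x, K ≤ x → f x = 1) : node 1 f ∈ H := by
  induction K generalizing f with
  | zero =>
    have : f = fun _ => 1 := by funext x; exact hf' x (by omega)
    rw [this, node_one]
    exact one_mem _
  | succ j ih =>
    have heq : node 1 f = node 1 (fun x => if x < j then f x else 1) * below j (f j) := by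
      rw [below_apply, node_one_mul]
      congr 1
      funext x
      rcases lt_trichotomy x j with h | h | h
      · rw [if_pos h, if_neg (by omega), mul_one]
      · subst h
        rw [if_neg (by omega), if_pos rfl, one_mul]
      · rw [if_neg (by omega), if_neg (by omega), mul_one, hf' x (by omega)]
    rw [heq]
    refine mul_mem (ih ?_ ?_) (hf j (by omega))
    · intro x hx
      rw [if_pos hx]
      exact hf x (by omega)
    · intro x hx
      rw [if_neg (by omega)]

/-- Words whose letters obey the degree bounds from level `n` on. -/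
def Valid (k : ℕ → ℕ) : ℕ → List ℕ → Prop
  | _, [] => True
  | n, x :: xs => x < k n ∧ Valid k (n + 1) xs

theorem valid_iff (k : ℕ → ℕ) (l : List ℕ) :
    ∀ n, Valid k n l ↔ ∀ (j : ℕ) (hj : j < l.length), l[j] < k (n + j) := by
  induction l with
  | nil => intro n; simp [Valid]
  | cons x xs ih =>
    intro n
    rw [Valid, ih]
    constructor
    · rintro ⟨h1, h2⟩ j hj
      rcases j with _ | j
      · simpa using h1
      · have := h2 j (by simpa using hj)
        simp only [List.getElem_cons_succ]
        rwa [show n + (j + 1) = n + 1 + j by omega]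
    · intro h
      constructor
      · exact h 0 (by simp)
      · intro j hj
        have := h (j + 1) (by simpa using hj)
        simp only [List.getElem_cons_succ] at this
        rwa [show n + (j + 1) = n + 1 + j by omega] at this

theorem valid_zeros {k : ℕ → ℕ} (hk : ∀ n, 5 ≤ k n) (j : ℕ) : ∀ n, Valid k n (List.replicate j 0) := by
  induction j with
  | zero => intro n; trivial
  | succ j ih =>
    intro n
    rw [List.replicate_succ]
    exact ⟨by have := hk n; omega, ih _⟩

variable {Γ : Type} [Group Γ] (D : Data Γ)

namespace Data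

theorem length_apply (l : List ℕ) : ∀ {n : ℕ} {g : Perm (List ℕ)}, g ∈ D.G n →
    (g l).length = l.length := by
  induction l with
  | nil =>
    intro n g hg
    obtain ⟨σ, f, rfl, -, -, -⟩ := D.decompose hg
    simp
  | cons x xs ih =>
    intro n g hg
    obtain ⟨σ, f, rfl, -, hf, -⟩ := D.decompose hg
    simp [ih (hf x)]

theorem valid_apply (l : List ℕ) : ∀ {n : ℕ} {g : Perm (List ℕ)}, g ∈ D.G n → Valid D.k n l →
    Valid D.k n (g l) := by
  induction l with
  | nil =>
    intro n g hg _
    obtain ⟨σ, f, rfl, -, -, -⟩ := D.decompose hg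
    trivial
  | cons x xs ih =>
    intro n g hg hl
    obtain ⟨σ, f, rfl, hσ, hf, -⟩ := D.decompose hg
    exact ⟨A_lt hσ hl.1, ih (hf x) hl.2⟩

theorem exists_section (u : List ℕ) : ∀ {n : ℕ} {g : Perm (List ℕ)}, g ∈ D.G n →
    ∃ h ∈ D.G (n + u.length), ∀ w, g (u ++ w) = g u ++ h w := by
  induction u with
  | nil =>
    intro n g hg
    refine ⟨g, hg, ?_⟩
    intro w
    have : g [] = [] := by
      have := D.length_apply [] hg
      simpa using this
    rw [this]
    rfl
  | cons x xs ih =>
    intro n g hg
    obtain ⟨σ, f, rfl, -, hf, -⟩ := D.decompose hg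
    obtain ⟨h, hh, hw⟩ := ih (hf x)
    refine ⟨h, ?_, ?_⟩
    · rw [List.length_cons, show n + (xs.length + 1) = n + 1 + xs.length by omega]
      exact hh
    · intro w
      simp [hw w]

theorem isPrefix_apply {n : ℕ} {g : Perm (List ℕ)} (hg : g ∈ D.G n) {u v : List ℕ} (h : u <+: v) :
    g u <+: g v := by
  obtain ⟨w, rfl⟩ := h
  obtain ⟨e, -, he⟩ := D.exists_section u hg
  rw [he w]
  exact List.prefix_append _ _

theorem isPrefix_apply_iff {n : ℕ} {g : Perm (List ℕ)} (hg : g ∈ D.G n) {u v : List ℕ} :
    g u <+: g v ↔ u <+: v := by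
  constructor
  · intro h
    have := D.isPrefix_apply (inv_mem hg) h
    simpa using this
  · exact D.isPrefix_apply hg

/-- level transitivity -/
theorem transitive (u : List ℕ) : ∀ {n : ℕ} {v : List ℕ}, Valid D.k n u → Valid D.k n v →
    u.length = v.length → ∃ g ∈ D.G n, g u = v := by
  induction u with
  | nil =>
    intro n v _ _ h
    rcases v with _ | ⟨y, v⟩
    · exact ⟨1, one_mem _, rfl⟩
    · simp at h
  | cons x u ih =>
    intro n v hu hv h
    rcases v with _ | ⟨y, v⟩
    · simp at h
    · obtain ⟨g, hg, hguv⟩ := ih hu.2 hv.2 (by simpa using h)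
      obtain ⟨σ, hσ, rfl⟩ := A_transitive (by have := D.hk n; omega) hu.1 hv.1
      refine ⟨root σ * below x g, mul_mem (D.root_mem hσ) (D.below_mem hu.1 hg), ?_⟩
      rw [Perm.mul_apply, below_apply, node_cons]
      simp [hguv]

/-- an element fixing all valid words is trivial -/
theorem eq_one_of_fix_valid_aux (l : List ℕ) : ∀ {n : ℕ} {g : Perm (List ℕ)}, g ∈ D.G n →
    (∀ u, Valid D.k n u → g u = u) → g l = l := by
  induction l with
  | nil =>
    intro n g hg h
    exact h [] trivial
  | cons x xs ih =>
    intro n g hg h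
    obtain ⟨σ, f, rfl, hσ, hf, hf'⟩ := D.decompose hg
    by_cases hx : x < D.k n
    · have hσx : σ x = x := by
        have := h [x] ⟨hx, trivial⟩
        rw [node_cons] at this
        exact (List.cons.inj this).1
      rw [node_cons, hσx, ih (hf x)]
      intro u hu
      have := h (x :: u) ⟨hx, hu⟩
      rw [node_cons, hσx] at this
      exact (List.cons.inj this).2
    · rw [node_cons, A_fix hσ (by omega), hf' x (by omega)]
      rfl

theorem eq_one_of_fix_valid {n : ℕ} {g : Perm (List ℕ)} (hg : g ∈ D.G n)
    (h : ∀ u, Valid D.k n u → g u = u) : g = 1 := by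
  ext1 l
  exact D.eq_one_of_fix_valid_aux l hg h

/-- The subgroup generated by the rigid stabilizers of the valid words of length `j`. -/
def R (n j : ℕ) : Subgroup (Perm (List ℕ)) :=
  Subgroup.closure {g | g ∈ D.G n ∧ ∃ u : List ℕ, Valid D.k n u ∧ u.length = j ∧
    ∀ l, ¬ u <+: l → g l = l}

theorem mem_R_of_fix (j : ℕ) : ∀ {n : ℕ} {g : Perm (List ℕ)}, g ∈ D.G n →
    (∀ u, Valid D.k n u → u.length = j → g u = u) → g ∈ D.R n j := by
  induction j with
  | zero =>
    intro n g hg _
    refine Subgroup.subset_closure ⟨hg, [], trivial, rfl, ?_⟩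
    intro l hl
    exact absurd (List.nil_prefix) hl
  | succ j ih =>
    intro n g hg h
    obtain ⟨σ, f, rfl, hσ, hf, hf'⟩ := D.decompose hg
    have hσ1 : σ = 1 := by
      ext1 x
      by_cases hx : x < D.k n
      · have := h (x :: List.replicate j 0) ⟨hx, valid_zeros D.hk j _⟩ (by simp)
        rw [node_cons] at this
        exact (List.cons.inj this).1
      · exact A_fix hσ (by omega)
    subst hσ1
    refine node_one_mem_of_below (K := D.k n) ?_ hf'
    intro x hx
    have h1 : f x ∈ D.R (n + 1) j := by
      apply ih (hf x)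
      intro u hu huj
      have := h (x :: u) ⟨hx, hu⟩ (by simp [huj])
      rw [node_cons] at this
      exact (List.cons.inj this).2
    have hle : D.R (n + 1) j ≤ (D.R n (j + 1)).comap (below x) := by
      rw [R, Subgroup.closure_le]
      rintro e ⟨he, u, hu, huj, hfix⟩
      refine Subgroup.subset_closure ⟨D.below_mem hx he, x :: u, ⟨hx, hu⟩, by simp [huj], ?_⟩
      intro l hl
      rcases l with _ | ⟨y, ys⟩
      · rfl
      · rw [below_apply, node_cons]
        by_cases hy : y = x
        · subst hy
          rw [if_pos rfl, hfix]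
          · rfl
          · intro hcon
            exact hl (by simpa using hcon)
        · rw [if_neg hy]
          rfl
    exact hle h1

end Data

end Pool.Agent.Lib.Branch74
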