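import Pool.Agent.Lib.Branch74.Tree

/-!
# Word length arguments: triviality and conjugacy
-/

namespace Pool.Agent.Lib.Branch74

open Equiv Equiv.Perm

namespace Data

section general

variable {Γ : Type} [Group Γ] (D : Data Γ)

theorem sp_eq_one_aux (γ : Γ) (l : List ℕ) : ∀ n, (∀ m, n < m → D.φ m γ = 1 ∧ D.ψ m γ = 1) →
    D.sp n γ l = l := by
  induction l with
  | nil => intro n _; rfl
  | cons x xs ih =>
    intro n h
    rw [D.sp_eq_node, node_cons]
    have : D.sec n γ x xs = xs := by
      rw [sec]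
      split_ifs
      · exact ih _ (fun m hm => h m (by omega))
      · rw [(h (n + 1) (by omega)).1, map_one]; rfl
      · rw [(h (n + 1) (by omega)).2, map_one]; rfl
      · rfl
    rw [this]
    rfl

theorem sp_eq_one {γ : Γ} {n : ℕ} (h : ∀ m, n < m → D.φ m γ = 1 ∧ D.ψ m γ = 1) : D.sp n γ = 1 := by
  ext1 l
  exact D.sp_eq_one_aux γ l n h

theorem of_sp_eq (j : ℕ) : ∀ {n : ℕ} {γ γ' : Γ}, D.sp n γ = D.sp n γ' →
    D.φ (n + j + 1) γ = D.φ (n + j + 1) γ' := by
  induction j with
  | zero =>
    intro n γ γ' h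
    rw [D.sp_eq_node, D.sp_eq_node] at h
    have := congrFun (node_injective h).2 1
    rw [sec_one, sec_one] at this
    exact root_injective this
  | succ j ih =>
    intro n γ γ' h
    rw [D.sp_eq_node, D.sp_eq_node] at h
    have := congrFun (node_injective h).2 0
    rw [sec_zero, sec_zero] at this
    have h2 := ih this
    rwa [show n + 1 + j + 1 = n + (j + 1) + 1 by omega] at h2

theorem of_sp_eq' {n m : ℕ} (hm : n < m) {γ γ' : Γ} (h : D.sp n γ = D.sp n γ') :
    D.φ m γ = D.φ m γ' := by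
  have := D.of_sp_eq (m - n - 1) h
  rwa [show n + (m - n - 1) + 1 = m by omega] at this

/-- Spinal elements which are conjugate at each level and eventually trivial are conjugate. -/
theorem conj_of {v v' : Γ} (h1 : ∀ n, ∃ σ ∈ A (D.k n), σ * D.φ n v * σ⁻¹ = D.φ n v')
    (h2 : ∀ n, D.ψ n v = 1 ∧ D.ψ n v' = 1)
    {N : ℕ} (h3 : ∀ n, N < n → D.φ n v = 1 ∧ D.φ n v' = 1) (j : ℕ) :
    ∀ n, N ≤ n + j → ∃ g ∈ D.G n, g * D.sp n v * g⁻¹ = D.sp n v' := by
  induction j with
  | zero =>
    intro n hn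
    refine ⟨1, one_mem _, ?_⟩
    rw [D.sp_eq_one (γ := v) (fun m hm => ⟨(h3 m (by omega)).1, (h2 m).1⟩),
      D.sp_eq_one (γ := v') (fun m hm => ⟨(h3 m (by omega)).2, (h2 m).2⟩)]
    simp
  | succ j ih =>
    intro n hn
    obtain ⟨g, hg, hgv⟩ := ih (n + 1) (by omega)
    obtain ⟨σ, hσ, hσv⟩ := h1 (n + 1)
    have hk := D.hk n
    refine ⟨below 0 g * below 1 (root σ), mul_mem (D.below_mem (by omega) hg)
      (D.below_mem (by omega) (D.root_mem hσ)), ?_⟩
    rw [D.sp_eq_node, D.sp_eq_node, below_apply, below_apply, node_one_mul, node_one_inv, node_one_mul,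
      node_one_mul]
    congr 1
    funext x
    by_cases hx0 : x = 0
    · subst hx0
      simpa [sec_zero] using hgv
    · by_cases hx1 : x = 1
      · subst hx1
        simp only [sec_one, ← hσv, map_mul, map_inv]
        simp
      · by_cases hx2 : x = 2
        · subst hx2
          simp [sec_two, h2]
        · rw [D.sec_of_three_le n v (by omega), D.sec_of_three_le n v' (by omega)]
          simp [hx0, hx1]

end general

section words

variable {ι : Type} (D : Data (FreeGroup ι))

/-- products with at most `s` spinal letters -/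
inductive S (n : ℕ) : ℕ → Perm (List ℕ) → Prop
  | base {s : ℕ} {σ : Perm ℕ} (h : σ ∈ A (D.k n)) : S n s (root σ)
  | step {s : ℕ} {σ : Perm ℕ} (h : σ ∈ A (D.k n)) (c : ι × Bool) {g : Perm (List ℕ)}
      (hg : S n s g) : S n (s + 1) (root σ * D.sp n (FreeGroup.mk [c]) * g)

theorem S_mono {n s s' : ℕ} {g : Perm (List ℕ)} (h : D.S n s g) (hs : s ≤ s') : D.S n s' g := by
  induction h generalizing s' with
  | base h => exact S.base h
  | step h c hg ih =>
    obtain ⟨t, rfl⟩ : ∃ t, s' = t + 1 := ⟨s' - 1, by omega⟩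
    exact S.step h c (ih (by omega))

theorem S_mem {n s : ℕ} {g : Perm (List ℕ)} (h : D.S n s g) : g ∈ D.G n := by
  induction h with
  | base h => exact D.root_mem h
  | step h c hg ih => exact mul_mem (mul_mem (D.root_mem h) (D.sp_mem _ _)) ih

theorem S_one (n s : ℕ) : D.S n s 1 := by
  have := S.base (D := D) (n := n) (s := s) (one_mem (A (D.k n)))
  rwa [map_one] at this

theorem S_root_mul {n s : ℕ} {g : Perm (List ℕ)} {σ : Perm ℕ} (hσ : σ ∈ A (D.k n))
    (h : D.S n s g) : D.S n s (root σ * g) := by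
  cases h with
  | base h =>
    rw [← map_mul]
    exact S.base (mul_mem hσ h)
  | step h c hg =>
    rw [← mul_assoc, ← mul_assoc, ← map_mul]
    exact S.step (mul_mem hσ h) c hg

theorem S_sp_mul {n s : ℕ} {g : Perm (List ℕ)} (c : ι × Bool)
    (h : D.S n s g) : D.S n (s + 1) (D.sp n (FreeGroup.mk [c]) * g) := by
  have := S.step (D := D) (one_mem (A (D.k n))) c h
  rwa [map_one, one_mul] at this

theorem S_mul {n s s' : ℕ} {g g' : Perm (List ℕ)} (h : D.S n s g) (h' : D.S n s' g') :
    D.S n (s + s') (g * g') := by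
  induction h with
  | base h => exact D.S_mono (D.S_root_mul h h') (by omega)
  | @step s σ h c g hg ih =>
    rw [mul_assoc, show s + 1 + s' = s + s' + 1 by omega]
    exact S.step h c ih

theorem mk_cons (c : ι × Bool) (w : List (ι × Bool)) :
    (FreeGroup.mk (c :: w) : FreeGroup ι) = FreeGroup.mk [c] * FreeGroup.mk w := by
  rw [FreeGroup.mul_mk]
  rfl

theorem S_pure {n : ℕ} (w : List (ι × Bool)) : ∀ {s : ℕ}, w.length ≤ s →
    D.S n s (D.sp n (FreeGroup.mk w)) := by
  induction w with
  | nil =>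
    intro s _
    have : (FreeGroup.mk [] : FreeGroup ι) = 1 := rfl
    rw [this, map_one]
    exact D.S_one n s
  | cons c w ih =>
    intro s hs
    obtain ⟨t, rfl⟩ : ∃ t, s = t + 1 := ⟨s - 1, by simp at hs; omega⟩
    rw [mk_cons, map_mul]
    exact D.S_sp_mul c (ih (by simpa using hs))

theorem S_inv {n s : ℕ} {g : Perm (List ℕ)} (h : D.S n s g) : ∃ t, D.S n t g⁻¹ := by
  induction h with
  | base h => exact ⟨0, by rw [← map_inv]; exact S.base (inv_mem h)⟩
  | @step s σ h c g hg ih =>
    obtain ⟨t, ht⟩ := ih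
    refine ⟨t + ((FreeGroup.invRev [c]).length + 0), ?_⟩
    rw [mul_inv_rev, mul_inv_rev, ← map_inv, ← map_inv]
    refine D.S_mul ht (D.S_mul ?_ (S.base (inv_mem h)))
    have h2 := D.S_pure (n := n) (FreeGroup.invRev [c]) le_rfl
    rwa [← FreeGroup.inv_mk] at h2

theorem exists_S {n : ℕ} {g : Perm (List ℕ)} (hg : g ∈ D.G n) : ∃ s, D.S n s g := by
  induction hg using Subgroup.closure_induction with
  | mem g hg =>
    rcases hg with ⟨σ, hσ, rfl⟩ | ⟨γ, rfl⟩
    · exact ⟨0, S.base hσ⟩
    · refine Quot.inductionOn γ ?_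
      intro w
      exact ⟨w.length, D.S_pure w le_rfl⟩
  | one => exact ⟨0, D.S_one n 0⟩
  | mul g g' _ _ ih ih' =>
    obtain ⟨s, hs⟩ := ih
    obtain ⟨t, ht⟩ := ih'
    exact ⟨s + t, D.S_mul hs ht⟩
  | inv g _ ih =>
    obtain ⟨s, hs⟩ := ih
    exact D.S_inv hs

/-- Sections have fewer letters, or come from a pure spinal word. -/
theorem S_section {n s : ℕ} {g : Perm (List ℕ)} (h : D.S n s g) :
    ∃ σ f, g = node σ f ∧ ∀ x, (∃ t, t + 1 ≤ s ∧ D.S (n + 1) t (f x)) ∨
      (∃ w : List (ι × Bool), w.length ≤ s ∧ f x = D.sp (n + 1) (FreeGroup.mk w)) := by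
  induction h with
  | @base s σ h =>
    refine ⟨σ, fun _ => 1, rfl, ?_⟩
    intro x
    right
    refine ⟨[], by simp, ?_⟩
    have : (FreeGroup.mk [] : FreeGroup ι) = 1 := rfl
    rw [this, map_one]
  | @step s σ h c g hg ih =>
    obtain ⟨τ, f, rfl, hf⟩ := ih
    refine ⟨σ * 1 * τ, fun x => D.sec n (FreeGroup.mk [c]) (τ x) * f x, ?_, ?_⟩
    · rw [D.sp_eq_node, root_apply, node_mul, node_mul]
      simp
    · intro x
      simp only
      have hroot : ∀ ρ ∈ A (D.k (n + 1)), ∃ t, t + 1 ≤ s + 1 ∧ D.S (n + 1) t (root ρ * f x) := by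
        intro ρ hρ
        rcases hf x with ⟨t, ht, htf⟩ | ⟨w, hw, hwf⟩
        · exact ⟨t, by omega, D.S_root_mul hρ htf⟩
        · refine ⟨s, le_rfl, D.S_root_mul hρ ?_⟩
          rw [hwf]
          exact D.S_pure w hw
      rw [sec]
      split_ifs
      · rcases hf x with ⟨t, ht, htf⟩ | ⟨w, hw, hwf⟩
        · left
          exact ⟨t + 1, by omega, D.S_sp_mul c htf⟩
        · right
          refine ⟨c :: w, by simpa using hw, ?_⟩
          rw [hwf, mk_cons c w, map_mul]
      · left
        exact hroot _ (D.hφ _ _)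
      · left
        exact hroot _ (D.hψ' _ _)
      · rw [one_mul]
        left
        have := hroot 1 (one_mem _)
        rwa [map_one, one_mul] at this

/-- the eventual behaviour of words is detected at linear depth -/
def Transfer (C : ℕ) : Prop :=
  ∀ (w : List (ι × Bool)) (n : ℕ), C * (w.length + 1) ≤ n → D.φ n (FreeGroup.mk w) = 1 →
    D.ψ n (FreeGroup.mk w) = 1 →
    ∀ m, n ≤ m → D.φ m (FreeGroup.mk w) = 1 ∧ D.ψ m (FreeGroup.mk w) = 1

theorem sp_apply_zeros_one (γ : FreeGroup ι) (x : ℕ) (j : ℕ) : ∀ n,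
    D.sp n γ (List.replicate j 0 ++ [1, x]) = List.replicate j 0 ++ [1, D.φ (n + j + 1) γ x] := by
  induction j with
  | zero =>
    intro n
    rw [D.sp_eq_node]
    simp [sec_one]
  | succ j ih =>
    intro n
    rw [D.sp_eq_node, List.replicate_succ, List.cons_append, node_cons, sec_zero, ih]
    rw [show n + 1 + j + 1 = n + (j + 1) + 1 by omega]
    rfl

theorem sp_apply_zeros_two (γ : FreeGroup ι) (x : ℕ) (j : ℕ) : ∀ n,
    D.sp n γ (List.replicate j 0 ++ [2, x]) = List.replicate j 0 ++ [2, D.ψ (n + j + 1) γ x] := by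
  induction j with
  | zero =>
    intro n
    rw [D.sp_eq_node]
    simp [sec_two]
  | succ j ih =>
    intro n
    rw [D.sp_eq_node, List.replicate_succ, List.cons_append, node_cons, sec_zero, ih]
    rw [show n + 1 + j + 1 = n + (j + 1) + 1 by omega]
    rfl

theorem valid_zeros_append {k : ℕ → ℕ} (hk : ∀ n, 5 ≤ k n) {y x : ℕ} (hy : y < 5) (j : ℕ) :
    ∀ n, x < k (n + j + 1) → Valid k n (List.replicate j 0 ++ [y, x]) := by
  induction j with
  | zero =>
    intro n hx
    exact ⟨by have := hk n; omega, hx, trivial⟩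
  | succ j ih =>
    intro n hx
    rw [List.replicate_succ, List.cons_append]
    refine ⟨by have := hk n; omega, ih (n + 1) ?_⟩
    rwa [show n + 1 + j + 1 = n + (j + 1) + 1 by omega]

/-- pure words are detected at linear depth -/
theorem pure_eq_one {C : ℕ} (hC : D.Transfer C) {w : List (ι × Bool)} {s : ℕ} (hw : w.length ≤ s)
    {n : ℕ} (h : ∀ u, Valid D.k n u → u.length ≤ C * (s + 1) + 2 → D.sp n (FreeGroup.mk w) u = u) :
    D.sp n (FreeGroup.mk w) = 1 := by
  have hφ : ∀ j, j ≤ C * (s + 1) → D.φ (n + j + 1) (FreeGroup.mk w) = 1 := by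
    intro j hj
    ext1 x
    by_cases hx : x < D.k (n + j + 1)
    · have h1 := h (List.replicate j 0 ++ [1, x])
        (valid_zeros_append D.hk (by omega) j n hx) (by simp; omega)
      rw [D.sp_apply_zeros_one] at h1
      simpa using h1
    · exact A_fix (D.hφ _ _) (by omega)
  have hψ : ∀ j, j ≤ C * (s + 1) → D.ψ (n + j + 1) (FreeGroup.mk w) = 1 := by
    intro j hj
    ext1 x
    by_cases hx : x < D.k (n + j + 1)
    · have h1 := h (List.replicate j 0 ++ [2, x])
        (valid_zeros_append D.hk (by omega) j n hx) (by simp; omega)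
      rw [D.sp_apply_zeros_two] at h1
      simpa using h1
    · exact A_fix (D.hψ' _ _) (by omega)
  have hle : C * (w.length + 1) ≤ C * (s + 1) := Nat.mul_le_mul_left _ (by omega)
  apply D.sp_eq_one
  intro m hm
  by_cases hm2 : m ≤ n + C * (s + 1) + 1
  · obtain ⟨j, rfl⟩ : ∃ j, m = n + j + 1 := ⟨m - n - 1, by omega⟩
    exact ⟨hφ j (by omega), hψ j (by omega)⟩
  · exact hC w (n + C * (s + 1) + 1) (by omega) (hφ _ le_rfl) (hψ _ le_rfl) m (by omega)

/-- triviality of products is detected at linear depth -/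
theorem eq_one_of_fix_bounded {C : ℕ} (hC : D.Transfer C) (s : ℕ) : ∀ {n : ℕ} {g : Perm (List ℕ)},
    D.S n s g → (∀ u, Valid D.k n u → u.length ≤ (C + 1) * (s + 1) + 3 → g u = u) → g = 1 := by
  induction s using Nat.strong_induction_on with
  | _ s ih =>
    intro n g hg h
    obtain ⟨σ, f, hgf, hσ, -, hf'⟩ := D.decompose (D.S_mem hg)
    obtain ⟨τ, e, hge, he⟩ := D.S_section hg
    obtain ⟨rfl, rfl⟩ := node_injective (hgf.symm.trans hge)
    subst hgf
    have hσ1 : σ = 1 := by
      ext1 x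
      by_cases hx : x < D.k n
      · have := h [x] ⟨hx, trivial⟩ (by simp)
        rw [node_cons] at this
        exact (List.cons.inj this).1
      · exact A_fix hσ (by omega)
    subst hσ1
    have hf1 : f = fun _ => 1 := by
      funext x
      by_cases hx : x < D.k n
      · have hfx : ∀ u, Valid D.k (n + 1) u → u.length ≤ (C + 1) * (s + 1) + 2 → f x u = u := by
          intro u hu hul
          have := h (x :: u) ⟨hx, hu⟩ (by simpa using hul)
          rw [node_cons] at this
          exact (List.cons.inj this).2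
        rcases he x with ⟨t, ht, htf⟩ | ⟨w, hw, hwf⟩
        · refine ih t (by omega) htf ?_
          intro u hu hul
          refine hfx u hu ?_
          have : (C + 1) * (t + 1) + (C + 1) ≤ (C + 1) * (s + 1) := by
            rw [← Nat.mul_succ]
            exact Nat.mul_le_mul_left _ (by omega)
          omega
        · rw [hwf]
          refine D.pure_eq_one hC hw ?_
          intro u hu hul
          rw [← hwf]
          refine hfx u hu ?_
          have : (C + 1) * (s + 1) = C * (s + 1) + (s + 1) := by ring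
          omega
      · exact hf' x (by omega)
    rw [hf1, node_one]

/-- A criterion for non-conjugacy. -/
theorem not_conj_of {v v' : FreeGroup ι}
    (h1 : ∀ (γ : FreeGroup ι) (N : ℕ), ∃ n, N < n ∧ D.φ n (γ * v * γ⁻¹) ≠ D.φ n v')
    (h2 : ∀ N : ℕ, ∃ n, N < n ∧ D.φ n v ≠ 1) (s : ℕ) :
    ∀ {n : ℕ} {g : Perm (List ℕ)}, D.S n s g → g * D.sp n v * g⁻¹ ≠ D.sp n v' := by
  induction s using Nat.strong_induction_on with
  | _ s ih =>
    intro n g hg heq
    obtain ⟨σ, f, rfl, he⟩ := D.S_section hg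
    rw [mul_inv_eq_iff_eq_mul, D.sp_eq_node, D.sp_eq_node, node_mul, node_mul] at heq
    have h0 := congrFun (node_injective heq).2 0
    simp only [Perm.coe_one, id_eq] at h0
    rw [sec_zero] at h0
    by_cases hσ0 : σ 0 = 0
    · rw [hσ0, sec_zero] at h0
      have h0' : f 0 * D.sp (n + 1) v * (f 0)⁻¹ = D.sp (n + 1) v' := by
        rw [mul_inv_eq_iff_eq_mul, h0]
      rcases he 0 with ⟨t, ht, htf⟩ | ⟨w, hw, hwf⟩
      · exact ih t (by omega) htf h0'
      · rw [hwf, ← map_inv, ← map_mul, ← map_mul] at h0'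
        obtain ⟨m, hm, hne⟩ := h1 (FreeGroup.mk w) (n + 1)
        exact hne (D.of_sp_eq' hm h0')
    · have hroot : ∃ τ, D.sec n v' (σ 0) = root τ := by
        rw [sec, if_neg hσ0]
        split_ifs
        · exact ⟨_, rfl⟩
        · exact ⟨_, rfl⟩
        · exact ⟨1, by rw [map_one]⟩
      obtain ⟨τ, hτ⟩ := hroot
      have hf0 : f 0 ∈ D.G (n + 1) := by
        rcases he 0 with ⟨t, ht, htf⟩ | ⟨w, hw, hwf⟩
        · exact D.S_mem htf
        · rw [hwf]; exact D.sp_mem _ _
      obtain ⟨ρ, e, hfe, -, -, -⟩ := D.decompose hf0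
      rw [hτ] at h0
      have h0' := h0
      rw [hfe, root_apply, D.sp_eq_node, node_mul, node_mul] at h0'
      have hρ := (node_injective h0').1
      rw [mul_one] at hρ
      have hτ1 : τ = 1 := by
        have : 1 * ρ = τ * ρ := by rw [one_mul]; exact hρ
        exact (mul_right_cancel this).symm
      have hsp : D.sp (n + 1) v = 1 := by
        rw [hτ1, map_one, one_mul] at h0
        exact mul_eq_left.mp h0
      obtain ⟨m, hm, hne⟩ := h2 (n + 1)
      apply hne
      have := D.of_sp_eq' hm (γ := v) (γ' := 1) (by rw [hsp, map_one])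
      rwa [map_one] at this

end words

end Data

end Pool.Agent.Lib.Branch74
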